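import Pool.Agent.H557R2.PW.Defs

/-! Task T2 (helper862): construction of the schedules. -/

namespace Pool.Agent.H557R2.PW

open Pool.Agent.NPC

/-- Pieces whose jobs are numbered by natural numbers. -/
structure T2Pc where
  /-- job number -/
  job : ℕ
  /-- machine -/
  mach : Fin 2
  /-- start -/
  start : ℝ
  /-- stop -/
  stop : ℝ

/-- compatibility of two pieces -/
def T2R (x y : T2Pc) : Prop :=
  x.start < x.stop → y.start < y.stop → (x.mach = y.mach ∨ x.job = y.job) →
    x.stop ≤ y.start ∨ y.stop ≤ x.start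

/-- amount of processing of job `k` -/
noncomputable def t2amt (L : List T2Pc) (k : ℕ) : ℝ :=
  (L.map (fun x => if x.job = k then x.stop - x.start else 0)).sum

theorem t2R_symm : ∀ {x y : T2Pc}, T2R x y → T2R y x := by
  intro x y h hy hx hm
  have hm' : x.mach = y.mach ∨ x.job = y.job := hm.imp Eq.symm Eq.symm
  exact (h hx hy hm').symm

theorem t2amt_append (L N : List T2Pc) (k : ℕ) : t2amt (L ++ N) k = t2amt L k + t2amt N k := by
  simp [t2amt]

theorem t2amt_filter (q : T2Pc → Bool) (L : List T2Pc) (k : ℕ)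
    (h : ∀ x ∈ L, q x = false → (if x.job = k then x.stop - x.start else 0) = 0) :
    t2amt (L.filter q) k = t2amt L k := by
  induction L with
  | nil => rfl
  | cons x L ih =>
    have ih' := ih (fun y hy => h y (List.mem_cons_of_mem _ hy))
    unfold t2amt at ih' ⊢
    by_cases hq : q x = true
    · rw [List.filter_cons_of_pos hq, List.map_cons, List.map_cons, List.sum_cons, List.sum_cons,
        ih']
    · rw [List.filter_cons_of_neg hq, List.map_cons, List.sum_cons, ih',
        h x List.mem_cons_self (by simpa using hq), zero_add]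

/-- one block of the schedule -/
theorem t2block (P M z z' : ℝ) (hz : 0 ≤ z) (hzP : z ≤ P / 2) (hz' : 0 ≤ z') (hzP' : z' ≤ P / 2)
    (a : ℕ) : ∃ N : List T2Pc,
      (∀ x ∈ N, M ≤ x.start ∧ x.start ≤ x.stop ∧ x.stop ≤ M + P) ∧
      (∀ x ∈ N, x.job = a ∧ x.stop ≤ M + z ∨
        x.job = a + 1 ∧ x.stop ≤ M + P - min z z' ∨ x.job = a + 2 ∨ x.job = a + 3) ∧
      N.Pairwise T2R ∧ t2amt N a = z ∧ t2amt N (a + 1) = P - z ∧ t2amt N (a + 2) = P - z' ∧
      t2amt N (a + 3) = z' ∧ ∀ k, k < a ∨ a + 3 < k → t2amt N k = 0 := by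
  rcases le_or_gt z z' with hle | hlt
  · refine ⟨[⟨a, 0, M, M + z⟩, ⟨a + 3, 0, M + z, M + z'⟩, ⟨a + 2, 0, M + z', M + P⟩,
      ⟨a + 1, 1, M, M + P - z⟩, ⟨a + 3, 1, M + P - z, M + P⟩], ?_, ?_, ?_, ?_, ?_, ?_, ?_, ?_⟩
    · intro x hx
      simp only [List.mem_cons, List.not_mem_nil, or_false] at hx
      rcases hx with rfl | rfl | rfl | rfl | rfl <;> refine ⟨?_, ?_, ?_⟩ <;> simp <;> linarith
    · intro x hx
      simp only [List.mem_cons, List.not_mem_nil, or_false] at hx
      rcases hx with rfl | rfl | rfl | rfl | rfl <;> simp [hle]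
    · simp only [List.pairwise_cons, List.mem_cons, List.not_mem_nil, or_false, T2R,
        forall_eq_or_imp, forall_eq]
      refine ⟨⟨?_, ?_, ?_, ?_⟩, ⟨?_, ?_, ?_⟩, ⟨?_, ?_⟩, ?_, ?_⟩ <;> simp <;>
        intros <;> (left; linarith)
    · simp [t2amt]
    · simp [t2amt]; ring
    · simp [t2amt]
    · simp [t2amt]
    · intro k hk
      have h0 : a ≠ k := by omega
      have h1 : a + 1 ≠ k := by omega
      have h2 : a + 2 ≠ k := by omega
      have h3 : a + 3 ≠ k := by omega
      simp [t2amt, h0, h1, h2, h3]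
  · refine ⟨[⟨a, 0, M, M + z⟩, ⟨a + 2, 0, M + z, M + P⟩, ⟨a + 2, 1, M, M + (z - z')⟩,
      ⟨a + 1, 1, M + (z - z'), M + P - z'⟩, ⟨a + 3, 1, M + P - z', M + P⟩], ?_, ?_, ?_, ?_, ?_, ?_, ?_, ?_⟩
    · intro x hx
      simp only [List.mem_cons, List.not_mem_nil, or_false] at hx
      rcases hx with rfl | rfl | rfl | rfl | rfl <;> refine ⟨?_, ?_, ?_⟩ <;> simp <;> linarith
    · intro x hx
      simp only [List.mem_cons, List.not_mem_nil, or_false] at hx
      rcases hx with rfl | rfl | rfl | rfl | rfl <;> simp [hlt.le]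
    · simp only [List.pairwise_cons, List.mem_cons, List.not_mem_nil, or_false, T2R,
        forall_eq_or_imp, forall_eq]
      refine ⟨⟨?_, ?_, ?_, ?_⟩, ⟨?_, ?_, ?_⟩, ⟨?_, ?_⟩, ?_, ?_⟩ <;> simp <;>
        intros <;> first | (left; linarith) | (right; linarith)
    · simp [t2amt]
    · simp [t2amt]; ring
    · simp [t2amt]
    · simp [t2amt]
    · intro k hk
      have h0 : a ≠ k := by omega
      have h1 : a + 1 ≠ k := by omega
      have h2 : a + 2 ≠ k := by omega
      have h3 : a + 3 ≠ k := by omega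
      simp [t2amt, h0, h1, h2, h3]

/-- the invariant after `m` blocks -/
structure T2Good (p : ℕ) (y : ℕ → ℕ) (m : ℕ) (L : List T2Pc) : Prop where
  nn : ∀ x ∈ L, 0 ≤ x.start
  le : ∀ x ∈ L, x.stop ≤ (p : ℝ) * (2 * m + 1) / 2
  sle : ∀ x ∈ L, x.start ≤ x.stop
  one : ∀ x ∈ L, 1 ≤ x.job
  bd : ∀ x ∈ L, x.stop ≤ ((p : ℝ) * x.job + y x.job) / 2
  pw : L.Pairwise T2R
  full : ∀ k, 1 ≤ k → k ≤ 2 * m → t2amt L k = p
  am1 : t2amt L (2 * m + 1) = p - (y (2 * m + 1) : ℝ) / 2
  am2 : t2amt L (2 * m + 2) = (y (2 * m + 1) : ℝ) / 2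
  am3 : ∀ k, 2 * m + 2 < k → t2amt L k = 0

theorem t2good_zero {p : ℕ} (y : ℕ → ℕ) (h0 : y 0 = 0) (hle : ∀ i, y i ≤ p)
    (hy : ∀ i, p ≤ y i + y (i + 1)) : ∃ L, T2Good p y 0 L := by
  have hp0 : (0 : ℝ) ≤ p := Nat.cast_nonneg p
  have hy1 : y 1 = p := by
    have h1 := hy 0
    have h2 := hle 1
    simp only [zero_add] at h1
    omega
  refine ⟨[⟨1, 0, 0, p / 2⟩, ⟨2, 1, 0, p / 2⟩], ?_, ?_, ?_, ?_, ?_, ?_, ?_, ?_, ?_, ?_⟩
  · intro x hx
    simp only [List.mem_cons, List.not_mem_nil, or_false] at hx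
    rcases hx with rfl | rfl <;> simp
  · intro x hx
    simp only [List.mem_cons, List.not_mem_nil, or_false] at hx
    rcases hx with rfl | rfl <;> simp
  · intro x hx
    simp only [List.mem_cons, List.not_mem_nil, or_false] at hx
    rcases hx with rfl | rfl <;> simp <;> positivity
  · intro x hx
    simp only [List.mem_cons, List.not_mem_nil, or_false] at hx
    rcases hx with rfl | rfl <;> simp
  · intro x hx
    have h2 : (0 : ℝ) ≤ y 2 := Nat.cast_nonneg _
    simp only [List.mem_cons, List.not_mem_nil, or_false] at hx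
    rcases hx with rfl | rfl
    · simp [hy1]
    · simp; linarith
  · simp [T2R]
  · intro k h1 h2
    omega
  · simp [t2amt, hy1]; ring
  · simp [t2amt, hy1]
  · intro k hk
    have h1 : 1 ≠ k := by omega
    have h2 : 2 ≠ k := by omega
    simp [t2amt, h1, h2]

theorem t2good_succ {p : ℕ} (y : ℕ → ℕ) (hle : ∀ i, y i ≤ p)
    (hy : ∀ i, p ≤ y i + y (i + 1)) (m : ℕ) {L : List T2Pc} (hL : T2Good p y m L) :
    ∃ L', T2Good p y (m + 1) L' := by
  have hp0 : (0 : ℝ) ≤ p := Nat.cast_nonneg p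
  have hyle : ∀ i, (y i : ℝ) ≤ p := fun i => by exact_mod_cast hle i
  have hynn : ∀ i, (0 : ℝ) ≤ y i := fun i => Nat.cast_nonneg _
  have hyy : ∀ i, (p : ℝ) ≤ y i + y (i + 1) := fun i => by exact_mod_cast hy i
  obtain ⟨N, h1, h2, h3, ha, hb, hc, hd, hk⟩ :=
    t2block (p : ℝ) ((p : ℝ) * (2 * m + 1) / 2) ((y (2 * m + 1) : ℝ) / 2)
      ((y (2 * m + 3) : ℝ) / 2) (by have := hynn (2 * m + 1); linarith)
      (by have := hyle (2 * m + 1); linarith) (by have := hynn (2 * m + 3); linarith)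
      (by have := hyle (2 * m + 3); linarith) (2 * m + 1)
  have e1 : 2 * (m + 1) + 1 = 2 * m + 3 := by ring
  have e2 : 2 * (m + 1) + 2 = 2 * m + 4 := by ring
  refine ⟨L ++ N, ?_, ?_, ?_, ?_, ?_, ?_, ?_, ?_, ?_, ?_⟩
  · intro x hx
    rcases List.mem_append.1 hx with hx | hx
    · exact hL.nn x hx
    · have := (h1 x hx).1
      have h : (0 : ℝ) ≤ (p : ℝ) * (2 * m + 1) / 2 := by positivity
      linarith
  · intro x hx
    push_cast
    rcases List.mem_append.1 hx with hx | hx
    · have := hL.le x hx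
      linarith
    · have := (h1 x hx).2.2
      linarith
  · intro x hx
    rcases List.mem_append.1 hx with hx | hx
    · exact hL.sle x hx
    · exact (h1 x hx).2.1
  · intro x hx
    rcases List.mem_append.1 hx with hx | hx
    · exact hL.one x hx
    · rcases h2 x hx with h | h | h | h
      · rw [h.1]; omega
      · rw [h.1]; omega
      · rw [h]; omega
      · rw [h]; omega
  · intro x hx
    rcases List.mem_append.1 hx with hx | hx
    · exact hL.bd x hx
    · rcases h2 x hx with h | h | h | h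
      · rw [h.1]
        push_cast
        linarith [h.2]
      · rw [h.1]
        have g1 := hyy (2 * m + 1)
        have g2 := hyy (2 * m + 2)
        have e3 : 2 * m + 1 + 1 = 2 * m + 2 := rfl
        have e4 : 2 * m + 2 + 1 = 2 * m + 3 := rfl
        rw [e3] at g1 ⊢
        rw [e4] at g2
        have g3 : (p : ℝ) / 2 - (y (2 * m + 2) : ℝ) / 2 ≤
            min ((y (2 * m + 1) : ℝ) / 2) ((y (2 * m + 3) : ℝ) / 2) := by
          apply le_min <;> linarith
        push_cast
        linarith [h.2]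
      · rw [h]
        have g1 := (h1 x hx).2.2
        have g2 := hynn (2 * m + 1 + 2)
        push_cast
        linarith
      · rw [h]
        have g1 := (h1 x hx).2.2
        have g2 := hynn (2 * m + 1 + 3)
        push_cast
        linarith
  · rw [List.pairwise_append]
    refine ⟨hL.pw, h3, ?_⟩
    intro x hx x' hx' _ _ _
    left
    have := hL.le x hx
    have := (h1 x' hx').1
    linarith
  · intro k hk1 hk2
    rw [t2amt_append]
    rcases Nat.lt_or_ge k (2 * m + 1) with h | h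
    · rw [hL.full k hk1 (by omega), hk k (Or.inl h), add_zero]
    · rcases Nat.lt_or_ge k (2 * m + 2) with h' | h'
      · have : k = 2 * m + 1 := by omega
        rw [this, hL.am1, ha]
        ring
      · have : k = 2 * m + 2 := by omega
        rw [this, hL.am2]
        have hb' : t2amt N (2 * m + 2) = p - (y (2 * m + 1) : ℝ) / 2 := hb
        rw [hb']
        ring
  · rw [t2amt_append, e1, hL.am3 _ (by omega)]
    have hc' : t2amt N (2 * m + 3) = p - (y (2 * m + 3) : ℝ) / 2 := hc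
    rw [hc', zero_add]
  · rw [t2amt_append, e1, e2, hL.am3 _ (by omega)]
    have hd' : t2amt N (2 * m + 4) = (y (2 * m + 3) : ℝ) / 2 := hd
    rw [hd', zero_add]
  · intro k hk'
    rw [t2amt_append, hL.am3 k (by omega), hk k (Or.inr (by omega)), add_zero]

theorem t2good_exists {p : ℕ} (y : ℕ → ℕ) (h0 : y 0 = 0) (hle : ∀ i, y i ≤ p)
    (hy : ∀ i, p ≤ y i + y (i + 1)) (m : ℕ) : ∃ L, T2Good p y m L := by
  induction m with
  | zero => exact t2good_zero y h0 hle hy
  | succ m ih =>
    obtain ⟨L, hL⟩ := ih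
    exact t2good_succ y hle hy m hL

/-- T2. Construction of schedules. -/
theorem build {p n : ℕ} (hp : 0 < p) (y : ℕ → ℕ) (h0 : y 0 = 0) (hle : ∀ i, y i ≤ p)
    (hy : ∀ i, p ≤ y i + y (i + 1)) (σ : Equiv.Perm (Fin n)) :
    ∃ S : Finset (Piece n), IsSchedule p n S ∧
      ∀ j : Fin n, completion S j ≤ ((p : ℝ) * ((σ j : ℕ) + 1) + y ((σ j : ℕ) + 1)) / 2 := by
  classical
  rcases Nat.eq_zero_or_pos n with rfl | hn
  · exact ⟨∅, ⟨by simp, by simp, by simp, fun j => j.elim0⟩, fun j => j.elim0⟩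
  obtain ⟨L₀, hL₀⟩ := t2good_exists y h0 hle hy n
  set q : T2Pc → Bool := fun x => decide (x.start < x.stop ∧ x.job ≤ n) with hq
  set L := L₀.filter q with hLdef
  have hmem : ∀ x ∈ L, x ∈ L₀ ∧ x.start < x.stop ∧ x.job ≤ n := by
    intro x hx
    rw [hLdef, List.mem_filter] at hx
    exact ⟨hx.1, by simpa [hq] using hx.2⟩
  have hpw : L.Pairwise T2R := hL₀.pw.filter q
  have hR : ∀ x ∈ L, ∀ x' ∈ L, x ≠ x' → (x.mach = x'.mach ∨ x.job = x'.job) →
      x.stop ≤ x'.start ∨ x'.stop ≤ x.start := by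
    intro x hx x' hx' hne hm
    have : Std.Symm T2R := ⟨fun a b h => t2R_symm h⟩
    exact hpw.forall hx hx' hne (hmem x hx).2.1 (hmem x' hx').2.1 hm
  have hnd : L.Nodup := by
    refine hpw.imp_of_mem ?_
    intro a b ha hb h hab
    subst hab
    have h1 := (hmem a ha).2.1
    rcases h h1 h1 (Or.inl rfl) with h2 | h2 <;> linarith
  have hamt : ∀ k, k ≤ n → t2amt L k = t2amt L₀ k := by
    intro k hk
    refine t2amt_filter q L₀ k ?_
    intro x hx hqx
    by_cases hxk : x.job = k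
    · rw [if_pos hxk]
      have h1 : ¬ (x.start < x.stop ∧ x.job ≤ n) := by simpa [hq] using hqx
      have h2 : ¬ x.start < x.stop := fun h => h1 ⟨h, by omega⟩
      have h3 := hL₀.sle x hx
      linarith
    · rw [if_neg hxk]
  -- relabelling
  set f : T2Pc → Piece n := fun x =>
    ⟨σ.symm ⟨(x.job - 1) % n, Nat.mod_lt _ hn⟩, x.mach, x.start, x.stop⟩ with hf
  have hjob : ∀ x ∈ L, ((σ (f x).job : ℕ)) + 1 = x.job := by
    intro x hx
    have h1 := hL₀.one x (hmem x hx).1
    have h2 := (hmem x hx).2.2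
    simp only [hf, Equiv.apply_symm_apply]
    rw [Nat.mod_eq_of_lt (by omega)]
    omega
  have hinj : ∀ x ∈ L, ∀ x' ∈ L, f x = f x' → x = x' := by
    intro x hx x' hx' h
    have h1 := hjob x hx
    have h2 := hjob x' hx'
    rw [h] at h1
    have h3 : x.job = x'.job := h1.symm.trans h2
    have h4 : x.mach = x'.mach := congrArg Piece.mach h
    have h5 : x.start = x'.start := congrArg Piece.start h
    have h6 : x.stop = x'.stop := congrArg Piece.stop h
    cases x
    cases x'
    simp_all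
  have hjj : ∀ x ∈ L, ∀ x' ∈ L, (f x).job = (f x').job → x.job = x'.job := by
    intro x hx x' hx' h
    rw [← hjob x hx, ← hjob x' hx', h]
  have hSmem : ∀ z ∈ L.toFinset.image f, ∃ x ∈ L, f x = z := by
    intro z hz
    obtain ⟨x, hx, hxz⟩ := Finset.mem_image.1 hz
    exact ⟨x, List.mem_toFinset.1 hx, hxz⟩
  have htotal : ∀ j : Fin n, ∑ x ∈ L.toFinset.image f with x.job = j, (x.stop - x.start) =
      (p : ℝ) := by
    intro j
    have hj := (σ j).2
    rw [Finset.sum_filter, Finset.sum_image (fun x hx x' hx' h =>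
      hinj x (List.mem_toFinset.1 hx) x' (List.mem_toFinset.1 hx') h)]
    rw [List.sum_toFinset _ hnd, ← hL₀.full ((σ j : ℕ) + 1) (by omega) (by omega),
      ← hamt _ (by omega), t2amt]
    congr 1
    refine List.map_congr_left ?_
    intro x hx
    have h1 := hjob x hx
    by_cases hxj : (f x).job = j
    · rw [if_pos hxj, if_pos (by rw [← h1, hxj])]
    · rw [if_neg hxj, if_neg]
      intro h2
      apply hxj
      apply σ.injective
      apply Fin.ext
      omega
  refine ⟨L.toFinset.image f, ⟨?_, ?_, ?_, htotal⟩, ?_⟩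
  · intro z hz
    obtain ⟨x, hx, rfl⟩ := hSmem z hz
    exact ⟨hL₀.nn x (hmem x hx).1, (hmem x hx).2.1⟩
  · intro z hz z' hz' hne hm
    obtain ⟨x, hx, rfl⟩ := hSmem z hz
    obtain ⟨x', hx', rfl⟩ := hSmem z' hz'
    exact hR x hx x' hx' (fun h => hne (by rw [h])) (Or.inl hm)
  · intro z hz z' hz' hne hm
    obtain ⟨x, hx, rfl⟩ := hSmem z hz
    obtain ⟨x', hx', rfl⟩ := hSmem z' hz'
    exact hR x hx x' hx' (fun h => hne (by rw [h])) (Or.inr (hjj x hx x' hx' hm))
  · intro j
    refine csSup_le ?_ ?_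
    · by_contra hempty
      have h1 := htotal j
      rw [Finset.sum_eq_zero] at h1
      · have : (0 : ℝ) < p := by exact_mod_cast hp
        linarith
      · intro x hx
        exfalso
        apply hempty
        obtain ⟨hx1, hx2⟩ := Finset.mem_filter.1 hx
        exact ⟨x.stop, x, hx1, hx2, rfl⟩
    · rintro t ⟨z, hz, hzj, rfl⟩
      obtain ⟨x, hx, rfl⟩ := hSmem z hz
      have h1 := hjob x hx
      have h2 := hL₀.bd x (hmem x hx).1
      rw [hzj] at h1
      rw [← h1] at h2
      push_cast at h2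
      exact h2

end Pool.Agent.H557R2.PW
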