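import Pool.Agent.H557R2.PW.Seat

/-!
# Correctness of the dynamic program
-/

namespace Pool.Agent.H557R2.PW

theorem minO_some_left {x : ℕ} (b : Option ℕ) : ∃ m, minO (some x) b = some m ∧ m ≤ x := by
  cases b with
  | none => exact ⟨x, rfl, le_rfl⟩
  | some y => exact ⟨min x y, rfl, min_le_left _ _⟩

theorem minO_some_right {x : ℕ} (a : Option ℕ) : ∃ m, minO a (some x) = some m ∧ m ≤ x := by
  cases a with
  | none => exact ⟨x, rfl, le_rfl⟩
  | some y => exact ⟨min y x, rfl, min_le_right _ _⟩

theorem minL_le {x : ℕ} : ∀ (l : List (Option ℕ)) (_ : some x ∈ l), ∃ m, minL l = some m ∧ m ≤ x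
  | [], h => by simp at h
  | b :: l, h => by
    rcases List.mem_cons.1 h with rfl | h
    · exact minO_some_left _
    · obtain ⟨m, h1, h2⟩ := minL_le l h
      change ∃ m, minO b (minL l) = some m ∧ m ≤ x
      rw [h1]
      obtain ⟨m', h3, h4⟩ := minO_some_right (x := m) b
      exact ⟨m', h3, h4.trans h2⟩

theorem minL_mem {m : ℕ} : ∀ (l : List (Option ℕ)) (_ : minL l = some m), some m ∈ l
  | [], h => by simp [minL] at h
  | b :: l, h => by
    change minO b (minL l) = some m at h
    cases b with
    | none =>
      exact List.mem_cons_of_mem _ (minL_mem l h)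
    | some x =>
      cases hl : minL l with
      | none =>
        rw [hl] at h
        simp [minO] at h
        simp [h]
      | some y =>
        rw [hl] at h
        simp only [minO, Option.elim_some, Option.some.injEq] at h
        rcases min_choice x y with h1 | h1
        · rw [h1] at h
          simp [h]
        · rw [h1] at h
          rw [h] at hl
          exact List.mem_cons_of_mem _ (minL_mem l hl)

theorem addO_eq_some {a b : Option ℕ} {m : ℕ} (h : addO a b = some m) :
    ∃ x y, a = some x ∧ b = some y ∧ m = x + y := by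
  cases a with
  | none => simp [addO] at h
  | some x =>
    cases b with
    | none => simp [addO] at h
    | some y =>
      simp [addO] at h
      exact ⟨x, y, rfl, rfl, h.symm⟩

theorem mem_win {L : List Job} {α β : ℕ} {k : Job} :
    k ∈ win L α β ↔ k ∈ L ∧ α ≤ k.2 ∧ k.2 < β := by
  simp [win, List.mem_filter]

theorem win_cons_pos {L : List Job} {α β : ℕ} {j : Job} (h : α ≤ j.2 ∧ j.2 < β) :
    win (j :: L) α β = j :: win L α β := by
  simp [win, h]

theorem win_cons_neg {L : List Job} {α β : ℕ} {j : Job} (h : ¬ (α ≤ j.2 ∧ j.2 < β)) :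
    win (j :: L) α β = win L α β := by
  simp only [win]
  rw [List.filter_cons_of_neg]
  simpa using h

theorem win_split {L : List Job} {α β X : ℕ} (h1 : α ≤ X) (h2 : X ≤ β) :
    (win L α X ++ win L X β).Perm (win L α β) := by
  have h := List.filter_append_perm (fun k : Job => decide (k.2 < X)) (win L α β)
  have e1 : (win L α β).filter (fun k => decide (k.2 < X)) = win L α X := by
    simp only [win, List.filter_filter]
    apply List.filter_congr
    intro k _
    rw [Bool.eq_iff_iff]
    simp
    omega
  have e2 : (win L α β).filter (fun k => !decide (k.2 < X)) = win L X β := by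
    simp only [win, List.filter_filter]
    apply List.filter_congr
    intro k _
    rw [Bool.eq_iff_iff]
    simp
    omega
  rwa [e1, e2] at h

/-- The doubled completion time of seat `i` with offsets `y`. -/
def seat (p : ℕ) (y : ℕ → ℕ) (i : ℕ) : ℕ := p * i + y i

theorem seat_mono {p : ℕ} {y : ℕ → ℕ} (h : ∀ i, y i ≤ p) : Monotone (seat p y) := by
  apply monotone_nat_of_le_succ
  intro i
  have := h i
  simp only [seat, Nat.mul_add, Nat.mul_one]
  omega

/-- The dynamic program is at most the cost of every arrangement. -/
theorem F_complete {p : ℕ} {Θ : List ℕ} {y : ℕ → ℕ} (hle : ∀ i, y i ≤ p)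
    (hy : ∀ i, p ≤ y i + y (i + 1)) :
    ∀ (L : List Job) (_ : L.Pairwise (fun j k => j.1 ≤ k.1)) (_ : ∀ k ∈ L, k.2 + 1 ∈ Θ)
      (α β a : ℕ) (J : List Job) (_ : J.Perm (win L α β)) (_ : α ∈ Θ) (_ : α ≤ β),
      ∃ m, F p Θ L α β a (y a) (y (a + J.length + 1)) = some m ∧ m ≤ cost (seat p y) a J := by
  intro L
  induction L with
  | nil =>
    intro _ _ α β a J hJ _ _
    have : J = [] := by
      have h : win [] α β = [] := rfl
      rw [h] at hJ
      exact hJ.eq_nil
    subst this
    refine ⟨0, ?_, by simp⟩
    simp only [F, List.length_nil, Nat.add_zero]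
    rw [if_pos (hy a)]
  | cons j L ih =>
    intro hsort hΘ α β a J hJ hα hαβ
    have hsort' := (List.pairwise_cons.1 hsort).2
    have hmin := (List.pairwise_cons.1 hsort).1
    have hΘ' : ∀ k ∈ L, k.2 + 1 ∈ Θ := fun k hk => hΘ k (List.mem_cons_of_mem _ hk)
    by_cases hw : α ≤ j.2 ∧ j.2 < β
    · rw [win_cons_pos hw] at hJ
      have hjJ : j ∈ J := hJ.mem_iff.2 (by simp)
      have hminJ : ∀ k ∈ J, j.1 ≤ k.1 := by
        intro k hk
        rcases List.mem_cons.1 (hJ.mem_iff.1 hk) with rfl | hk'
        · exact le_rfl
        · exact hmin k (mem_win.1 hk').1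
      obtain ⟨P, Q, X0, h1, h2, h3, h4⟩ := lawler (seat_mono hle) j J hjJ hminJ a
      have h5 : (P ++ Q).Perm (win L α β) := by
        have : (j :: (P ++ Q)).Perm (j :: win L α β) :=
          (List.perm_middle.symm.trans h1).trans hJ
        exact this.cons_inv
      have hmemP : ∀ k ∈ P, k ∈ win L α β := fun k hk => h5.mem_iff.1 (by simp [hk])
      have hmemQ : ∀ k ∈ Q, k ∈ win L α β := fun k hk => h5.mem_iff.1 (by simp [hk])
      -- the threshold
      obtain ⟨X, hXΘ, hαX, hXβ, hPX, hQX⟩ : ∃ X ∈ Θ, α ≤ X ∧ X ≤ β ∧ (∀ k ∈ P, k.2 < X) ∧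
          ∀ k ∈ Q, X ≤ k.2 := by
        rcases P.eq_nil_or_concat with hP | ⟨_, _, hP⟩
        · subst hP
          exact ⟨α, hα, le_rfl, hαβ, by simp, fun k hk => (mem_win.1 (hmemQ k hk)).2.1⟩
        · have hne : P ≠ [] := by rw [hP]; simp
          obtain ⟨k0, hk0, hk0'⟩ : ∃ k0 ∈ P, ∀ k ∈ P, k.2 ≤ k0.2 := by
            have hne' : P.toFinset.Nonempty := by
              rw [List.toFinset_nonempty_iff]
              exact hne
            obtain ⟨k0, h6, h7⟩ := P.toFinset.exists_max_image (fun k => k.2) hne'
            exact ⟨k0, by simpa using h6, fun k hk => h7 k (by simpa using hk)⟩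
          have hk0w := mem_win.1 (hmemP k0 hk0)
          refine ⟨k0.2 + 1, hΘ' k0 hk0w.1, by omega, by omega, fun k hk => ?_, fun k hk => ?_⟩
          · have := hk0' k hk
            omega
          · have h6 := h3 k0 hk0
            have h7 := h4 k hk
            omega
      -- the two parts
      have hsplit := h5.trans (win_split (L := L) hαX hXβ).symm
      have hP : P.Perm (win L α X) := by
        have h6 := hsplit.filter (fun k => decide (k.2 < X))
        rw [List.filter_append, List.filter_append] at h6
        have e1 : P.filter (fun k => decide (k.2 < X)) = P := by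
          rw [List.filter_eq_self]
          intro k hk
          simpa using hPX k hk
        have e2 : Q.filter (fun k => decide (k.2 < X)) = [] := by
          rw [List.filter_eq_nil_iff]
          intro k hk
          simpa using hQX k hk
        have e3 : (win L α X).filter (fun k => decide (k.2 < X)) = win L α X := by
          rw [List.filter_eq_self]
          intro k hk
          simpa using (mem_win.1 hk).2.2
        have e4 : (win L X β).filter (fun k => decide (k.2 < X)) = [] := by
          rw [List.filter_eq_nil_iff]
          intro k hk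
          simpa using (mem_win.1 hk).2.1
        rwa [e1, e2, e3, e4, List.append_nil, List.append_nil] at h6
      have hQ : Q.Perm (win L X β) := by
        have h6 := (List.Perm.append_right Q hP).symm.trans hsplit
        exact (List.perm_append_left_iff _).1 h6
      have hlen : (win L α X).length = P.length := hP.length_eq.symm
      obtain ⟨m1, h6, h7⟩ := ih hsort' hΘ' α X a P hP hα hαX
      obtain ⟨m2, h8, h9⟩ := ih hsort' hΘ' X β (a + P.length + 1) Q hQ hXΘ hXβ
      have hJlen : J.length = P.length + 1 + Q.length := by
        rw [← h1.length_eq]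
        simp
        omega
      have e5 : a + P.length + 1 + Q.length + 1 = a + J.length + 1 := by omega
      rw [e5] at h8
      have hmem : some (m1 + (j.1 * (p * (a + P.length + 1) + y (a + P.length + 1) - 2 * j.2) + m2))
          ∈ (Θ.flatMap (fun X => (List.range (p + 1)).map (fun v =>
        if α ≤ X ∧ X ≤ β then
          addO (F p Θ L α X a (y a) v)
            (addO (some (j.1 * (p * (a + (win L α X).length + 1) + v - 2 * j.2)))
              (F p Θ L X β (a + (win L α X).length + 1) v (y (a + J.length + 1))))
        else none))) := by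
        rw [List.mem_flatMap]
        refine ⟨X, hXΘ, ?_⟩
        rw [List.mem_map]
        refine ⟨y (a + P.length + 1), List.mem_range.2 (by have := hle (a + P.length + 1); omega),
          ?_⟩
        rw [if_pos ⟨hαX, hXβ⟩, hlen, h6, h8]
        rfl
      obtain ⟨m, h10, h11⟩ := minL_le _ hmem
      refine ⟨m, ?_, h11.trans (le_trans ?_ h2)⟩
      · rw [F, if_pos hw]
        exact h10
      · rw [cost_append, cost_cons]
        simp only [seat] at h7 h9 ⊢
        omega
    · rw [win_cons_neg hw] at hJ
      obtain ⟨m, h1, h2⟩ := ih hsort' hΘ' α β a J hJ hα hαβ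
      refine ⟨m, ?_, h2⟩
      rw [F, if_neg hw]
      exact h1

/-- Every value of the dynamic program is the cost of an arrangement. -/
theorem F_sound {p : ℕ} {Θ : List ℕ} :
    ∀ (L : List Job) (α β a c c' m : ℕ) (_ : c ≤ p) (_ : c' ≤ p)
      (_ : F p Θ L α β a c c' = some m),
      ∃ (J : List Job) (y : ℕ → ℕ), J.Perm (win L α β) ∧ y a = c ∧ y (a + J.length + 1) = c' ∧
        (∀ i, a ≤ i → i ≤ a + J.length + 1 → y i ≤ p) ∧
        (∀ i, a ≤ i → i ≤ a + J.length → p ≤ y i + y (i + 1)) ∧ cost (seat p y) a J = m := by
  intro L
  induction L with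
  | nil =>
    intro α β a c c' m hc hc' h
    rw [F] at h
    split_ifs at h with h1
    refine ⟨[], fun i => if i = a then c else c', List.Perm.refl _, by simp, by simp, ?_, ?_, ?_⟩
    · intro i _ _
      dsimp only
      split_ifs <;> assumption
    · intro i h2 h3
      have : i = a := by simp at h3; omega
      subst this
      simpa using h1
    · simpa using h
  | cons j L ih =>
    intro α β a c c' m hc hc' h
    by_cases hw : α ≤ j.2 ∧ j.2 < β
    · rw [F, if_pos hw] at h
      have h1 := minL_mem _ h
      rw [List.mem_flatMap] at h1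
      obtain ⟨X, hX, h2⟩ := h1
      rw [List.mem_map] at h2
      obtain ⟨v, hv, h3⟩ := h2
      have hv' : v ≤ p := by
        have := List.mem_range.1 hv
        omega
      split_ifs at h3 with h4
      obtain ⟨m1, r, h5, h6, h7⟩ := addO_eq_some h3
      obtain ⟨q, m2, h8, h9, h10⟩ := addO_eq_some h6
      simp only [Option.some.injEq] at h8
      obtain ⟨J1, y1, i1, i2, i3, i4, i5, i6⟩ := ih α X a c v m1 hc hv' h5
      obtain ⟨J2, y2, k1, k2, k3, k4, k5, k6⟩ :=
        ih X β (a + (win L α X).length + 1) v c' m2 hv' hc' h9
      have hlen : (win L α X).length = J1.length := i1.length_eq.symm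
      rw [hlen] at k2 k3 k4 k5 k6 h8
      refine ⟨J1 ++ j :: J2, fun i => if i ≤ a + J1.length + 1 then y1 i else y2 i,
        ?_, ?_, ?_, ?_, ?_, ?_⟩
      · rw [win_cons_pos hw]
        refine List.perm_middle.trans (List.Perm.cons _ ?_)
        exact (i1.append k1).trans (win_split h4.1 h4.2)
      · dsimp only
        rw [if_pos (by omega)]
        exact i2
      · dsimp only
        have e : a + (J1 ++ j :: J2).length + 1 = a + J1.length + 1 + J2.length + 1 := by
          simp
          omega
        rw [e, if_neg (by omega)]
        exact k3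
      · intro i h11 h12
        dsimp only
        split_ifs with h13
        · exact i4 i h11 h13
        · apply k4 i (by omega)
          simp at h12
          omega
      · intro i h11 h12
        dsimp only
        by_cases h13 : i ≤ a + J1.length
        · rw [if_pos (by omega), if_pos (by omega)]
          exact i5 i h11 h13
        · by_cases h14 : i = a + J1.length + 1
          · subst h14
            rw [if_pos le_rfl, if_neg (by omega), i3, ← k2]
            exact k5 _ le_rfl (by omega)
          · rw [if_neg (by omega), if_neg (by omega)]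
            apply k5 i (by omega)
            simp at h12
            omega
      · rw [cost_append, cost_cons]
        have e1 : cost (seat p fun i => if i ≤ a + J1.length + 1 then y1 i else y2 i) a J1 =
            cost (seat p y1) a J1 := by
          apply cost_congr
          intro i h11 h12
          simp only [seat]
          rw [if_pos (by omega)]
        have e2 : cost (seat p fun i => if i ≤ a + J1.length + 1 then y1 i else y2 i)
            (a + J1.length + 1) J2 = cost (seat p y2) (a + J1.length + 1) J2 := by
          apply cost_congr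
          intro i h11 h12
          simp only [seat]
          rw [if_neg (by omega)]
        rw [e1, e2, i6, k6, h7, h10, ← h8]
        simp only [seat]
        rw [if_pos le_rfl, i3]
    · rw [F, if_neg hw] at h
      obtain ⟨J, y, h1, h2, h3, h4, h5, h6⟩ := ih α β a c c' m hc hc' h
      exact ⟨J, y, by rwa [win_cons_neg hw], h2, h3, h4, h5, h6⟩

/-! ## Sorting -/

theorem ins_perm (j : Job) (l : List Job) : (ins j l).Perm (j :: l) := by
  unfold ins
  exact List.perm_middle.trans (List.Perm.cons _ (List.filter_append_perm _ l))

theorem isort_perm : ∀ I : List Job, (isort I).Perm I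
  | [] => List.Perm.refl _
  | j :: I => by
    change (ins j (isort I)).Perm (j :: I)
    exact (ins_perm j _).trans (List.Perm.cons _ (isort_perm I))

theorem ins_sorted (j : Job) (l : List Job) (h : l.Pairwise (fun j k => j.1 ≤ k.1)) :
    (ins j l).Pairwise (fun j k => j.1 ≤ k.1) := by
  unfold ins
  rw [List.pairwise_append, List.pairwise_cons]
  refine ⟨h.filter _, ⟨?_, h.filter _⟩, ?_⟩
  · intro k hk
    have := (List.mem_filter.1 hk).2
    simp at this
    exact this
  · intro k hk k' hk'
    have h1 := (List.mem_filter.1 hk).2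
    simp at h1
    rcases List.mem_cons.1 hk' with rfl | hk'
    · exact h1.le
    · have h2 := (List.mem_filter.1 hk').2
      simp at h2
      omega

theorem isort_sorted : ∀ I : List Job, (isort I).Pairwise (fun j k => j.1 ≤ k.1)
  | [] => List.Pairwise.nil
  | j :: I => ins_sorted j _ (isort_sorted I)

/-- The dynamic program computes the optimum over all arrangements. -/
theorem opt_spec (p : ℕ) (I : List Job) :
    ∃ m, optO p I = some m ∧
      (∃ (J : List Job) (y : ℕ → ℕ), J.Perm I ∧ y 0 = 0 ∧ (∀ i, y i ≤ p) ∧
        (∀ i, p ≤ y i + y (i + 1)) ∧ cost (seat p y) 0 J = m) ∧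
      ∀ (J : List Job) (y : ℕ → ℕ), J.Perm I → y 0 = 0 → (∀ i, y i ≤ p) →
        (∀ i, p ≤ y i + y (i + 1)) → m ≤ cost (seat p y) 0 J := by
  set B := (I.map (fun j => j.2 + 1)).sum with hB
  have hwin : win (isort I) 0 B = isort I := by
    rw [win, List.filter_eq_self]
    intro k hk
    have hk' : k ∈ I := (isort_perm I).mem_iff.1 hk
    have : k.2 + 1 ≤ B := List.single_le_sum (by simp) _ (List.mem_map.2 ⟨k, hk', rfl⟩)
    simp
    omega
  have hΘ : ∀ k ∈ isort I, k.2 + 1 ∈ theta I := by
    intro k hk
    have hk' : k ∈ I := (isort_perm I).mem_iff.1 hk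
    simp only [theta, List.mem_cons, List.mem_append, List.mem_map]
    exact Or.inr (Or.inl ⟨k, hk', rfl⟩)
  have h0 : 0 ∈ theta I := by simp [theta]
  have key : ∀ (J : List Job) (y : ℕ → ℕ), J.Perm I → y 0 = 0 → (∀ i, y i ≤ p) →
        (∀ i, p ≤ y i + y (i + 1)) → ∃ m, optO p I = some m ∧ m ≤ cost (seat p y) 0 J := by
    intro J y hJ hy0 hle hy
    have hle' : ∀ i, (fun i => if i ≤ J.length then y i else p) i ≤ p := by
      intro i
      dsimp only
      split_ifs
      · exact hle i
      · exact le_rfl
    have hy' : ∀ i, p ≤ (fun i => if i ≤ J.length then y i else p) i +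
        (fun i => if i ≤ J.length then y i else p) (i + 1) := by
      intro i
      dsimp only
      split_ifs with h1 h2
      · exact hy i
      · omega
      · omega
      · omega
    obtain ⟨m, h1, h2⟩ := F_complete hle' hy' (isort I) (isort_sorted I) hΘ 0 B 0 J
      (by rw [hwin]; exact hJ.trans (isort_perm I).symm) h0 (Nat.zero_le _)
    refine ⟨m, ?_, h2.trans (le_of_eq ?_)⟩
    · rw [optO, ← h1, if_pos (Nat.zero_le _), if_neg (by omega), hy0]
    · apply cost_congr
      intro i _ h4
      simp only [seat]
      rw [if_pos (by omega)]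
  obtain ⟨m, hm, _⟩ := key I (fun i => if i = 0 then 0 else p) (List.Perm.refl _) rfl
    (fun i => by split_ifs <;> omega) (fun i => by simp)
  refine ⟨m, hm, ?_, ?_⟩
  · obtain ⟨J, y, h1, h2, h3, h4, h5, h6⟩ := F_sound (isort I) 0 B 0 0 p m (Nat.zero_le _) le_rfl hm
    refine ⟨J, fun i => if i ≤ J.length then y i else p, ?_, ?_, ?_, ?_, ?_⟩
    · rw [hwin] at h1
      exact h1.trans (isort_perm I)
    · dsimp only
      rw [if_pos (Nat.zero_le _)]
      exact h2
    · intro i
      dsimp only
      split_ifs with h7
      · exact h4 i (Nat.zero_le _) (by omega)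
      · exact le_rfl
    · intro i
      dsimp only
      split_ifs with h7 h8
      · exact h5 i (Nat.zero_le _) (by omega)
      · omega
      · omega
      · omega
    · rw [← h6]
      apply cost_congr
      intro i _ h8
      simp only [seat]
      rw [if_pos (by omega)]
  · intro J y h1 h2 h3 h4
    obtain ⟨m', h5, h6⟩ := key J y h1 h2 h3 h4
    rw [hm] at h5
    simp only [Option.some.injEq] at h5
    omega

end Pool.Agent.H557R2.PW
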