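import Pool.Agent.H671R2.PolyAuto

/-!
# Preemptive scheduling of equal-length jobs on two identical machines: definitions
-/

namespace Pool.Agent.H557R2.PW

open Pool.Agent.NPC

/-- A job is given by its weight and its due date. -/
abbrev Job := ℕ × ℕ

/-- A piece of processing: job `job` runs on machine `mach` during the time interval
`[start, stop)`. -/
structure Piece (n : ℕ) where
  /-- the job processed -/
  job : Fin n
  /-- the machine used -/
  mach : Fin 2
  /-- the start of the interval -/
  start : ℝ
  /-- the end of the interval -/
  stop : ℝ

/-- A preemptive schedule of `n` jobs of processing time `p` on two identical machines: finitely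
many nonempty time intervals, each on one machine and with one job, such that each machine runs at
most one job at any time, no job runs on both machines at the same time, and every job is
processed for a total time of `p`. -/
structure IsSchedule (p n : ℕ) (S : Finset (Piece n)) : Prop where
  pos : ∀ x ∈ S, 0 ≤ x.start ∧ x.start < x.stop
  mach_disj : ∀ x ∈ S, ∀ y ∈ S, x ≠ y → x.mach = y.mach → x.stop ≤ y.start ∨ y.stop ≤ x.start
  job_disj : ∀ x ∈ S, ∀ y ∈ S, x ≠ y → x.job = y.job → x.stop ≤ y.start ∨ y.stop ≤ x.start
  total : ∀ j : Fin n, ∑ x ∈ S with x.job = j, (x.stop - x.start) = (p : ℝ)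

/-- The completion time of a job: the end of its last interval. -/
noncomputable def completion {n : ℕ} (S : Finset (Piece n)) (j : Fin n) : ℝ :=
  sSup {t | ∃ x ∈ S, x.job = j ∧ x.stop = t}

/-- The total weighted tardiness of a schedule of the jobs `I`. -/
noncomputable def tardiness (I : List Job) (S : Finset (Piece I.length)) : ℝ :=
  ∑ j : Fin I.length, ((I[j].1 : ℕ) : ℝ) * max 0 (completion S j - ((I[j].2 : ℕ) : ℝ))

/-- The decision version: is there a preemptive schedule of total weighted tardiness at most
`K`? -/
def Decision (p : ℕ) (x : List Job × ℕ) : Prop :=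
  ∃ S : Finset (Piece x.1.length), IsSchedule p x.1.length S ∧ tardiness x.1 S ≤ (x.2 : ℝ)

/-! ## The dynamic program -/

/-- The jobs with due date in `[α, β)`. -/
def win (L : List Job) (α β : ℕ) : List Job :=
  L.filter (fun j => decide (α ≤ j.2) && decide (j.2 < β))

/-- Minimum of two optional numbers (`none` is infinity). -/
def minO (a b : Option ℕ) : Option ℕ :=
  a.elim b (fun x => b.elim (some x) (fun y => some (min x y)))

/-- Sum of two optional numbers (`none` is infinity). -/
def addO (a b : Option ℕ) : Option ℕ :=
  a.elim none (fun x => b.elim none (fun y => some (x + y)))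

/-- Minimum of a list of optional numbers. -/
def minL (l : List (Option ℕ)) : Option ℕ := l.foldr minO none

/-- The value computed by the dynamic program. `L` is sorted by increasing weight; the jobs of `L`
with due date in `[α, β)` occupy the seats `a+1, …`; `y`, `y'` are the offsets of the two seats
adjacent to these. -/
def F (p : ℕ) (Θ : List ℕ) : List Job → ℕ → ℕ → ℕ → ℕ → ℕ → Option ℕ
  | [], _, _, _, y, y' => if p ≤ y + y' then some 0 else none
  | j :: L, α, β, a, y, y' =>
    if α ≤ j.2 ∧ j.2 < β then
      minL (Θ.flatMap (fun X => (List.range (p + 1)).map (fun v =>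
        if α ≤ X ∧ X ≤ β then
          addO (F p Θ L α X a y v)
            (addO (some (j.1 * (p * (a + (win L α X).length + 1) + v - 2 * j.2)))
              (F p Θ L X β (a + (win L α X).length + 1) v y'))
        else none)))
    else F p Θ L α β a y y'

/-- Insertion into a list sorted by increasing weight. -/
def ins (j : Job) (l : List Job) : List Job :=
  l.filter (fun k => decide (k.1 < j.1)) ++ j :: l.filter (fun k => !decide (k.1 < j.1))

/-- Sorting by increasing weight. -/
def isort (I : List Job) : List Job := I.foldr ins []

/-- The thresholds used. -/
def theta (I : List Job) : List ℕ := 0 :: (I.map (fun j => j.2 + 1) ++ [(I.map (fun j => j.2 + 1)).sum])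

/-- Twice the minimum total weighted tardiness (as an optional number). -/
def optO (p : ℕ) (I : List Job) : Option ℕ :=
  F p (theta I) (isort I) 0 ((I.map (fun j => j.2 + 1)).sum) 0 0 p

end Pool.Agent.H557R2.PW
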