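import Mathlib
import Pool.Agent.H557R2.PW.Defs

/-!
# Threshold rounding of the offsets of the seats
-/

namespace Pool.Agent.H557R2.PW

open MeasureTheory

/-- integral of a step function over `[0,1)` -/
theorem T3_step_integral (a b c : ℝ) (hc0 : 0 ≤ c) (hc1 : c ≤ 1) :
    IntegrableOn (fun x : ℝ => if x < c then a else b) (Set.Ico 0 1) volume ∧
    ∫ x in Set.Ico (0 : ℝ) 1, (if x < c then a else b) = c * a + (1 - c) * b := by
  have hfun : (fun x : ℝ => if x < c then a else b) =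
      fun x => b + (Set.Iio c).indicator (fun _ => a - b) x := by
    funext x
    by_cases hx : x < c
    · rw [if_pos hx, Set.indicator_of_mem (show x ∈ Set.Iio c from hx)]
      ring
    · rw [if_neg hx, Set.indicator_of_notMem (show x ∉ Set.Iio c from hx)]
      ring
  have hi1 : IntegrableOn (fun _ : ℝ => b) (Set.Ico (0 : ℝ) 1) volume := by
    refine integrableOn_const ?_ ?_
    · rw [Real.volume_Ico]; exact ENNReal.ofReal_ne_top
    · exact enorm_ne_top
  have hi2 : IntegrableOn (fun x => (Set.Iio c).indicator (fun _ => a - b) x)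
      (Set.Ico (0 : ℝ) 1) volume := by
    apply IntegrableOn.indicator _ measurableSet_Iio
    refine integrableOn_const ?_ ?_
    · rw [Real.volume_Ico]; exact ENNReal.ofReal_ne_top
    · exact enorm_ne_top
  rw [hfun]
  refine ⟨hi1.add hi2, ?_⟩
  rw [integral_add hi1 hi2, setIntegral_const, setIntegral_indicator measurableSet_Iio,
    Set.Ico_inter_Iio, setIntegral_const, min_eq_right hc1,
    Real.volume_real_Ico_of_le (by norm_num), Real.volume_real_Ico_of_le hc0]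
  simp only [smul_eq_mul]
  ring

/-- averaging finitely many step functions -/
theorem T3_exists_threshold (n : ℕ) (a b c : ℕ → ℝ) (hc0 : ∀ i, 0 ≤ c i) (hc1 : ∀ i, c i ≤ 1) :
    ∃ x : ℝ, 0 ≤ x ∧ x < 1 ∧ ∑ i ∈ Finset.range n, (if x < c i then a i else b i) ≤
      ∑ i ∈ Finset.range n, (c i * a i + (1 - c i) * b i) := by
  have hvol : volume (Set.Ico (0 : ℝ) 1) = 1 := by
    rw [Real.volume_Ico]; norm_num
  have hint : IntegrableOn (fun x : ℝ => ∑ i ∈ Finset.range n, (if x < c i then a i else b i))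
      (Set.Ico (0 : ℝ) 1) volume :=
    integrable_finsetSum _ (fun i _ => (T3_step_integral (a i) (b i) (c i) (hc0 i) (hc1 i)).1)
  obtain ⟨x, hx, hle⟩ := exists_le_setAverage (μ := volume) (s := Set.Ico (0 : ℝ) 1)
    (by rw [hvol]; exact one_ne_zero) (by rw [hvol]; exact ENNReal.one_ne_top) hint
  refine ⟨x, hx.1, hx.2, hle.trans (le_of_eq ?_)⟩
  rw [setAverage_eq, Real.volume_real_Ico_of_le (by norm_num), integral_finsetSum]
  · simp only [sub_zero, inv_one, one_smul]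
    apply Finset.sum_congr rfl
    intro i _
    exact (T3_step_integral (a i) (b i) (c i) (hc0 i) (hc1 i)).2
  · intro i _
    exact (T3_step_integral (a i) (b i) (c i) (hc0 i) (hc1 i)).1

/-- the rounded offset as an integer -/
noncomputable def T3_Y (y : ℕ → ℝ) (θ : ℝ) (i : ℕ) : ℤ :=
  if i % 2 = 1 then ⌊y i + θ⌋ else ⌈y i - θ⌉

theorem T3_Y_nonneg (y : ℕ → ℝ) (hnn : ∀ i, 0 ≤ y i) {θ : ℝ} (h0 : 0 ≤ θ) (h1 : θ < 1) (i : ℕ) :
    0 ≤ T3_Y y θ i := by
  unfold T3_Y
  split_ifs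
  · exact Int.floor_nonneg.mpr (add_nonneg (hnn i) h0)
  · have : (-1 : ℤ) < ⌈y i - θ⌉ := by
      rw [Int.lt_ceil]
      push_cast
      have := hnn i
      linarith
    omega

theorem T3_Y_le {p : ℕ} (y : ℕ → ℝ) (hle : ∀ i, y i ≤ p) {θ : ℝ} (h0 : 0 ≤ θ) (h1 : θ < 1)
    (i : ℕ) : T3_Y y θ i ≤ p := by
  unfold T3_Y
  split_ifs
  · have : ⌊y i + θ⌋ < (p : ℤ) + 1 := by
      rw [Int.floor_lt]
      push_cast
      have := hle i
      linarith
    omega
  · rw [Int.ceil_le]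
    push_cast
    have := hle i
    linarith

theorem T3_sum_ge {p : ℕ} (u v θ : ℝ) (h : (p : ℝ) ≤ u + v) :
    (p : ℤ) ≤ ⌊u + θ⌋ + ⌈v - θ⌉ := by
  have h1 : u + θ < ⌊u + θ⌋ + 1 := Int.lt_floor_add_one _
  have h2 : v - θ ≤ ⌈v - θ⌉ := Int.le_ceil _
  have h3 : ((p : ℤ) : ℝ) < ((⌊u + θ⌋ + ⌈v - θ⌉ + 1 : ℤ) : ℝ) := by
    push_cast
    linarith
  have h4 := Int.cast_lt.mp h3
  omega

theorem T3_Y_sum {p : ℕ} (y : ℕ → ℝ) (hy : ∀ i, (p : ℝ) ≤ y i + y (i + 1)) (θ : ℝ) (i : ℕ) :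
    (p : ℤ) ≤ T3_Y y θ i + T3_Y y θ (i + 1) := by
  unfold T3_Y
  by_cases hi : i % 2 = 1
  · rw [if_pos hi, if_neg (by omega)]
    exact T3_sum_ge _ _ _ (hy i)
  · rw [if_neg hi, if_pos (by omega), add_comm]
    apply T3_sum_ge
    have := hy i
    linarith

/-- convex cost -/
theorem T3_affine (w p' D g : ℤ) (lam : ℝ) (h0 : 0 ≤ lam) (h1 : lam ≤ 1) :
    (1 - lam) * ((w : ℝ) * max 0 ((p' : ℝ) + g - D)) +
      lam * ((w : ℝ) * max 0 ((p' : ℝ) + (g + 1 : ℤ) - D)) =
      (w : ℝ) * max 0 ((p' : ℝ) + (g + lam) - D) := by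
  rcases le_or_gt 0 (p' + g - D) with h | h
  · have hr : (0 : ℝ) ≤ (p' : ℝ) + g - D := by exact_mod_cast h
    rw [max_eq_right hr, max_eq_right (by push_cast; linarith), max_eq_right (by linarith)]
    push_cast
    ring
  · have h' : p' + (g + 1) - D ≤ 0 := by omega
    have hr : (p' : ℝ) + (g + 1 : ℤ) - D ≤ 0 := by exact_mod_cast h'
    have hr2 : (p' : ℝ) + g + 1 - D ≤ 0 := by push_cast at hr; linarith
    rw [max_eq_left hr, max_eq_left (by linarith), max_eq_left (by linarith)]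
    ring

theorem T3_floor_eq (x θ : ℝ) (h0 : 0 ≤ θ) (h1 : θ < 1) :
    ⌊x + θ⌋ = if θ < 1 - Int.fract x then ⌊x⌋ else ⌊x⌋ + 1 := by
  have hx : (⌊x⌋ : ℝ) + Int.fract x = x := Int.floor_add_fract x
  have hf0 := Int.fract_nonneg x
  have hf1 := Int.fract_lt_one x
  split_ifs with h
  · rw [Int.floor_eq_iff]
    constructor <;> linarith
  · rw [Int.floor_eq_iff]
    push_cast
    push Not at h
    constructor <;> linarith

theorem T3_ceil_eq (x θ : ℝ) (h0 : 0 ≤ θ) (h1 : θ < 1) :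
    ⌈x - θ⌉ = if θ < Int.fract x then ⌊x⌋ + 1 else ⌊x⌋ := by
  have hx : (⌊x⌋ : ℝ) + Int.fract x = x := Int.floor_add_fract x
  have hf0 := Int.fract_nonneg x
  have hf1 := Int.fract_lt_one x
  split_ifs with h
  · rw [Int.ceil_eq_iff]
    push_cast
    constructor <;> linarith
  · rw [Int.ceil_eq_iff]
    push Not at h
    constructor <;> linarith

/-- T3. Rounding of the offsets of the seats. -/
theorem rounding {p n : ℕ} (y : ℕ → ℝ) (h0 : y 0 = 0) (hnn : ∀ i, 0 ≤ y i) (hle : ∀ i, y i ≤ p)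
    (hy : ∀ i, (p : ℝ) ≤ y i + y (i + 1)) (w D : ℕ → ℕ) :
    ∃ y' : ℕ → ℕ, y' 0 = 0 ∧ (∀ i, y' i ≤ p) ∧ (∀ i, p ≤ y' i + y' (i + 1)) ∧
      ∑ i ∈ Finset.range n, (w i : ℝ) * max 0 ((p : ℝ) * (i + 1) + y' (i + 1) - D i) ≤
        ∑ i ∈ Finset.range n, (w i : ℝ) * max 0 ((p : ℝ) * (i + 1) + y (i + 1) - D i) := by
  set lo : ℕ → ℝ := fun i => (w i : ℝ) * max 0 ((p : ℝ) * (i + 1) + ⌊y (i + 1)⌋ - D i) with hlo
  set hi : ℕ → ℝ := fun i => (w i : ℝ) * max 0 ((p : ℝ) * (i + 1) + (⌊y (i + 1)⌋ + 1 : ℤ) - D i)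
    with hhi
  obtain ⟨θ, hθ0, hθ1, hθ⟩ := T3_exists_threshold n
    (fun i => if (i + 1) % 2 = 1 then lo i else hi i)
    (fun i => if (i + 1) % 2 = 1 then hi i else lo i)
    (fun i => if (i + 1) % 2 = 1 then 1 - Int.fract (y (i + 1)) else Int.fract (y (i + 1)))
    (by
      intro i
      have hf0 := Int.fract_nonneg (y (i + 1))
      have hf1 := (Int.fract_lt_one (y (i + 1))).le
      split_ifs <;> linarith)
    (by
      intro i
      have hf0 := Int.fract_nonneg (y (i + 1))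
      have hf1 := (Int.fract_lt_one (y (i + 1))).le
      split_ifs <;> linarith)
  have hcast : ∀ i, ((T3_Y y θ i).toNat : ℤ) = T3_Y y θ i := fun i =>
    Int.toNat_of_nonneg (T3_Y_nonneg y hnn hθ0 hθ1 i)
  refine ⟨fun i => (T3_Y y θ i).toNat, ?_, ?_, ?_, ?_⟩
  · have : T3_Y y θ 0 = 0 := by
      unfold T3_Y
      rw [if_neg (by norm_num), h0, Int.ceil_eq_iff]
      push_cast
      constructor <;> linarith
    dsimp only
    rw [this]
    rfl
  · intro i
    have h1 := T3_Y_le y hle hθ0 hθ1 i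
    have h2 := hcast i
    dsimp only
    omega
  · intro i
    have h1 := T3_Y_sum y hy θ i
    have h2 := hcast i
    have h3 := hcast (i + 1)
    dsimp only
    omega
  · have hL : ∀ i ∈ Finset.range n,
        (w i : ℝ) * max 0 ((p : ℝ) * (i + 1) + ((T3_Y y θ (i + 1)).toNat : ℝ) - D i) =
        if θ < (if (i + 1) % 2 = 1 then 1 - Int.fract (y (i + 1)) else Int.fract (y (i + 1)))
        then (if (i + 1) % 2 = 1 then lo i else hi i)
        else (if (i + 1) % 2 = 1 then hi i else lo i) := by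
      intro i _
      have hc : (((T3_Y y θ (i + 1)).toNat : ℕ) : ℝ) = ((T3_Y y θ (i + 1) : ℤ) : ℝ) := by
        rw [← hcast (i + 1), Int.cast_natCast, Int.toNat_natCast]
      rw [hc]
      unfold T3_Y
      by_cases hpar : (i + 1) % 2 = 1
      · rw [if_pos hpar, if_pos hpar, if_pos hpar, if_pos hpar, T3_floor_eq _ _ hθ0 hθ1]
        by_cases hlt : θ < 1 - Int.fract (y (i + 1))
        · rw [if_pos hlt, if_pos hlt]
        · rw [if_neg hlt, if_neg hlt]
      · rw [if_neg hpar, if_neg hpar, if_neg hpar, if_neg hpar, T3_ceil_eq _ _ hθ0 hθ1]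
        by_cases hlt : θ < Int.fract (y (i + 1))
        · rw [if_pos hlt, if_pos hlt]
        · rw [if_neg hlt, if_neg hlt]
    rw [Finset.sum_congr rfl hL]
    refine hθ.trans (le_of_eq ?_)
    apply Finset.sum_congr rfl
    intro i _
    have haff := T3_affine (w i) (p * (i + 1)) (D i) ⌊y (i + 1)⌋ (Int.fract (y (i + 1)))
      (Int.fract_nonneg _) (Int.fract_lt_one _).le
    rw [Int.floor_add_fract] at haff
    push_cast at haff
    by_cases hpar : (i + 1) % 2 = 1
    · rw [if_pos hpar, if_pos hpar, if_pos hpar, hlo, hhi]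
      dsimp only
      push_cast
      linarith
    · rw [if_neg hpar, if_neg hpar, if_neg hpar, hlo, hhi]
      dsimp only
      push_cast
      linarith

end Pool.Agent.H557R2.PW
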