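import Mathlib
import Pool.Agent.H557R2.PW.Defs

/-!
# The work bound for preemptive schedules on two machines
-/

namespace Pool.Agent.H557R2.PW

open MeasureTheory

/-- the processing done in a piece before time `t` -/
noncomputable def T1_l {n : ℕ} (t : ℝ) (x : Piece n) : ℝ := min x.stop t - min x.start t

theorem T1_l_nonneg {n : ℕ} (t : ℝ) (x : Piece n) (hx : x.start < x.stop) : 0 ≤ T1_l t x := by
  unfold T1_l
  have := min_le_min_right t hx.le
  linarith

theorem T1_l_diff {n : ℕ} (s t : ℝ) (hst : s ≤ t) (x : Piece n) (hx : x.start < x.stop) :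
    T1_l t x - T1_l s x = max (min x.stop t - max x.start s) 0 := by
  unfold T1_l
  rcases le_total x.stop s with h1 | h1
  · rw [min_eq_left h1, min_eq_left (h1.trans hst), min_eq_left (hx.le.trans h1),
      min_eq_left ((hx.le.trans h1).trans hst), max_eq_right (hx.le.trans h1),
      max_eq_right (by linarith)]
    ring
  · rcases le_total x.start s with h2 | h2
    · have h3 : s ≤ min x.stop t := le_min h1 hst
      rw [min_eq_right h1, min_eq_left h2, min_eq_left (h2.trans hst), max_eq_right h2,
        max_eq_left (by linarith)]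
      ring
    · rw [min_eq_right h1, min_eq_right h2, max_eq_left h2]
      rcases le_total x.start t with h3 | h3
      · have h4 : x.start ≤ min x.stop t := le_min hx.le h3
        rw [min_eq_left h3, max_eq_left (by linarith)]
        ring
      · rw [min_eq_right h3, min_eq_right (h3.trans hx.le), max_eq_right (by linarith)]
        ring

/-- total length of pairwise disjoint pieces in `[s,t)` -/
theorem T1_disj {n : ℕ} (T : Finset (Piece n)) (hpos : ∀ x ∈ T, x.start < x.stop)
    (hT : ∀ x ∈ T, ∀ y ∈ T, x ≠ y → x.stop ≤ y.start ∨ y.stop ≤ x.start) (s t : ℝ)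
    (hst : s ≤ t) : ∑ x ∈ T, (T1_l t x - T1_l s x) ≤ t - s := by
  have h1 : ∑ x ∈ T, (T1_l t x - T1_l s x) =
      ∑ x ∈ T, volume.real (Set.Ico (max x.start s) (min x.stop t)) := by
    apply Finset.sum_congr rfl
    intro x hx
    rw [T1_l_diff s t hst x (hpos x hx), Real.volume_real_Ico]
  have hfin : ∀ x ∈ T, volume (Set.Ico (max x.start s) (min x.stop t)) ≠ ⊤ := by
    intro x _
    rw [Real.volume_Ico]
    exact ENNReal.ofReal_ne_top
  rw [h1, ← measureReal_biUnion_finset (h := hfin)]
  · calc volume.real (⋃ x ∈ T, Set.Ico (max x.start s) (min x.stop t))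
        ≤ volume.real (Set.Ico s t) := by
          apply measureReal_mono
          · intro z hz
            simp only [Set.mem_iUnion, Set.mem_Ico] at hz
            obtain ⟨x, _, hz1, hz2⟩ := hz
            exact ⟨(le_max_right _ _).trans hz1, hz2.trans_le (min_le_right _ _)⟩
          · rw [Real.volume_Ico]; exact ENNReal.ofReal_ne_top
      _ = t - s := Real.volume_real_Ico_of_le hst
  · intro x hx y hy hxy
    rw [Function.onFun, Set.disjoint_left]
    intro z hz hz'
    rw [Set.mem_Ico] at hz hz'
    have a1 := (le_max_left x.start s).trans hz.1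
    have a2 := hz.2.trans_le (min_le_left _ _)
    have b1 := (le_max_left y.start s).trans hz'.1
    have b2 := hz'.2.trans_le (min_le_left _ _)
    rcases hT x hx y hy hxy with h | h <;> linarith
  · intro x _
    exact measurableSet_Ico

/-- T1. Work bound. -/
theorem work_bound {p n : ℕ} {S : Finset (Piece n)} (hS : IsSchedule p n S)
    (A : Finset (Fin n)) (j : Fin n) (hj : j ∉ A) (s t : ℝ) (hs : 0 ≤ s) (hst : s ≤ t)
    (hA : ∀ i ∈ A, completion S i ≤ s) (ht : completion S j ≤ t) :
    (p : ℝ) * (A.card + 1) ≤ s + t := by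
  classical
  have hpos : ∀ x ∈ S, x.start < x.stop := fun x hx => (hS.pos x hx).2
  -- pieces end before the completion time
  have hcomp : ∀ x ∈ S, x.stop ≤ completion S x.job := by
    intro x hx
    unfold completion
    apply le_csSup
    · have hfin : {t | ∃ y ∈ S, y.job = x.job ∧ y.stop = t}.Finite := by
        apply (S.image (fun y => y.stop)).finite_toSet.subset
        rintro u ⟨y, hy, _, rfl⟩
        exact Finset.mem_coe.mpr (Finset.mem_image_of_mem (fun y : Piece n => y.stop) hy)
      exact hfin.bddAbove
    · exact ⟨x, hx, rfl, rfl⟩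
  have hfull : ∀ u : ℝ, ∀ i : Fin n, completion S i ≤ u →
      ∑ x ∈ S with x.job = i, T1_l u x = (p : ℝ) := by
    intro u i hi
    rw [← hS.total i]
    apply Finset.sum_congr rfl
    intro x hx
    rw [Finset.mem_filter] at hx
    have h1 := hcomp x hx.1
    rw [hx.2] at h1
    have h2 := h1.trans hi
    unfold T1_l
    rw [min_eq_left h2, min_eq_left ((hpos x hx.1).le.trans h2)]
  have hjdiff : ∑ x ∈ S with x.job = j, (T1_l t x - T1_l s x) ≤ t - s := by
    apply T1_disj _ _ _ s t hst
    · intro x hx
      exact hpos x (Finset.mem_filter.mp hx).1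
    · intro x hx y hy hxy
      rw [Finset.mem_filter] at hx hy
      exact hS.job_disj x hx.1 y hy.1 hxy (hx.2.trans hy.2.symm)
  have hmach : ∀ m : Fin 2, ∑ x ∈ S with x.mach = m, T1_l s x ≤ s := by
    intro m
    have h := T1_disj (S.filter (fun x => x.mach = m))
      (fun x hx => hpos x (Finset.mem_filter.mp hx).1)
      (by
        intro x hx y hy hxy
        rw [Finset.mem_filter] at hx hy
        exact hS.mach_disj x hx.1 y hy.1 hxy (hx.2.trans hy.2.symm)) 0 s hs
    have h0 : ∀ x ∈ S.filter (fun x => x.mach = m), T1_l s x - T1_l 0 x = T1_l s x := by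
      intro x hx
      have hx' := hS.pos x (Finset.mem_filter.mp hx).1
      have : T1_l 0 x = 0 := by
        unfold T1_l
        rw [min_eq_right (by linarith), min_eq_right hx'.1]
        ring
      rw [this, sub_zero]
    rw [Finset.sum_congr rfl h0, sub_zero] at h
    exact h
  have htot : ∑ x ∈ S, T1_l s x ≤ 2 * s := by
    rw [← Finset.sum_fiberwise S (fun x => x.mach) (fun x => T1_l s x), Fin.sum_univ_two]
    have h0 := hmach 0
    have h1 := hmach 1
    linarith
  have hsub : ∑ i ∈ insert j A, ∑ x ∈ S with x.job = i, T1_l s x ≤ ∑ x ∈ S, T1_l s x := by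
    rw [← Finset.sum_fiberwise S (fun x => x.job) (fun x => T1_l s x)]
    apply Finset.sum_le_sum_of_subset_of_nonneg (Finset.subset_univ _)
    intro i _ _
    apply Finset.sum_nonneg
    intro x hx
    exact T1_l_nonneg s x (hpos x (Finset.mem_filter.mp hx).1)
  rw [Finset.sum_insert hj] at hsub
  have hAsum : ∑ i ∈ A, ∑ x ∈ S with x.job = i, T1_l s x = A.card * (p : ℝ) := by
    rw [Finset.sum_congr rfl (fun i hi => hfull s i (hA i hi)), Finset.sum_const, nsmul_eq_mul]
  rw [hAsum] at hsub
  rw [Finset.sum_sub_distrib, hfull t j ht] at hjdiff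
  linarith

end Pool.Agent.H557R2.PW
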