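import Pool.Agent.H557R2.PW.DP
import Pool.Agent.H557R2.PW.Work
import Pool.Agent.H557R2.PW.Build
import Pool.Agent.H557R2.PW.Round
import Pool.Agent.NPC.Dec

/-!
# The dynamic program computes twice the minimum total weighted tardiness
-/

namespace Pool.Agent.H557R2.PW

open Pool.Agent.NPC

/-- A permutation of lists comes from a bijection of the positions. -/
theorem perm_equiv {J I : List Job} (h : J.Perm I) :
    ∃ e : Fin J.length ≃ Fin I.length, ∀ i, J[i] = I[e i] := by
  have h1 : List.Forall₂ (fun (a : Job) (k : Fin I.length) => a = I[k]) I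
      (List.finRange I.length) := by
    rw [List.forall₂_iff_get]
    refine ⟨by simp, ?_⟩
    intro i h1 h2
    simp
  obtain ⟨z, hz1, hz2⟩ := List.perm_comp_forall₂ h h1
  have hlen : J.length = z.length := hz1.length_eq
  have hnd : z.Nodup := hz2.nodup_iff.2 (List.nodup_finRange _)
  have hmem : ∀ x, x ∈ z := fun x => hz2.mem_iff.2 (List.mem_finRange x)
  refine ⟨(finCongr hlen).trans (List.Nodup.getEquivOfForallMemList z hnd hmem), ?_⟩
  intro i
  have h3 := (List.forall₂_iff_get.1 hz1).2 i i.2 (by rw [← hlen]; exact i.2)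
  exact h3

theorem cost_eq_sum (τ : ℕ → ℕ) : ∀ (J : List Job) (a : ℕ),
    cost τ a J = ∑ i : Fin J.length, J[i].1 * (τ (a + i + 1) - 2 * J[i].2)
  | [], a => by simp
  | j :: J, a => by
    rw [cost_cons, cost_eq_sum τ J (a + 1)]
    change _ = ∑ i : Fin (J.length + 1), (j :: J)[i].1 * (τ (a + i + 1) - 2 * (j :: J)[i].2)
    rw [Fin.sum_univ_succ]
    congr 1
    apply Finset.sum_congr rfl
    intro i _
    have e : a + 1 + (i : ℕ) + 1 = a + ((Fin.succ i : Fin (J.length + 1)) : ℕ) + 1 := by
      simp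
      omega
    rw [e]
    rfl

theorem natsub_cast (a b : ℕ) : ((a - b : ℕ) : ℝ) = max 0 ((a : ℝ) - b) := by
  rcases le_total a b with h | h
  · have h1 : (a : ℝ) ≤ b := by exact_mod_cast h
    rw [Nat.sub_eq_zero_of_le h, max_eq_left (by linarith)]
    simp
  · have h1 : (b : ℝ) ≤ a := by exact_mod_cast h
    rw [Nat.cast_sub h, max_eq_right (by linarith)]

/-- Lower bound. -/
theorem lower {p : ℕ} {I : List Job} {m : ℕ} (hm : optO p I = some m)
    (S : Finset (Piece I.length)) (hS : IsSchedule p I.length S) :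
    (m : ℝ) ≤ 2 * tardiness I S := by
  obtain ⟨m', hm', _, hmin⟩ := opt_spec p I
  have hmm : m' = m := by
    rw [hm] at hm'
    simpa using hm'.symm
  subst hmm
  set C : Fin I.length → ℝ := completion S with hC
  set σ : Equiv.Perm (Fin I.length) := Tuple.sort C with hσ
  have hmono : Monotone (C ∘ σ) := Tuple.monotone_sort C
  -- the sorted completion times
  set c : ℕ → ℝ := fun i => if h : i < I.length then C (σ ⟨i, h⟩) else 0 with hc
  have hcv : ∀ i (h : i < I.length), c i = C (σ ⟨i, h⟩) := fun i h => by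
    simp only [hc]
    rw [dif_pos h]
  have hcm : ∀ i, i + 1 < I.length → c i ≤ c (i + 1) := by
    intro i h
    rw [hcv i (by omega), hcv (i + 1) h]
    exact hmono (by simp [Fin.le_def])
  have W0 : 0 < I.length → (p : ℝ) ≤ c 0 := by
    intro h
    by_cases hneg : 0 ≤ c 0
    · have := work_bound hS ∅ (σ ⟨0, h⟩) (by simp) 0 (c 0) le_rfl hneg (by simp)
        (by rw [hcv 0 h])
      simpa using this
    · exfalso
      push Not at hneg
      have := work_bound hS ∅ (σ ⟨0, h⟩) (by simp) 0 0 le_rfl le_rfl (by simp)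
        (by rw [hcv 0 h] at hneg; exact hneg.le)
      simp at this
      -- then `p = 0` and there are no pieces
      have hp0 : (p : ℝ) = 0 := by simp [this]
      have h1 : ∀ x ∈ S, x.job ≠ σ ⟨0, h⟩ := by
        intro x hx hxj
        have h2 := hS.total (σ ⟨0, h⟩)
        rw [hp0] at h2
        have h3 := (Finset.sum_eq_zero_iff_of_nonneg (fun x hx => by
          have := (hS.pos x (Finset.mem_filter.1 hx).1).2
          linarith)).1 h2 x (Finset.mem_filter.2 ⟨hx, hxj⟩)
        have := (hS.pos x hx).2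
        linarith
      have h4 : completion S (σ ⟨0, h⟩) = 0 := by
        unfold completion
        have : {t : ℝ | ∃ x ∈ S, x.job = σ ⟨0, h⟩ ∧ x.stop = t} = ∅ := by
          ext t
          simp only [Set.mem_ofPred_eq, Set.mem_empty_iff_false, iff_false]
          rintro ⟨x, hx, hxj, _⟩
          exact h1 x hx hxj
        rw [this, Real.sSup_empty]
      rw [hcv 0 h] at hneg
      have : C (σ ⟨0, h⟩) = 0 := h4
      linarith
  have hnn : ∀ i, i < I.length → 0 ≤ c i := by
    intro i
    induction i with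
    | zero => intro h; exact le_trans (by positivity) (W0 h)
    | succ i ih => intro h; exact (ih (by omega)).trans (hcm i h)
  have W1 : ∀ i, i + 1 < I.length → (p : ℝ) * (i + 2) ≤ c i + c (i + 1) := by
    intro i h
    have h1 := work_bound hS ((Finset.univ.filter (fun k : Fin I.length => (k : ℕ) < i + 1)).map
      σ.toEmbedding) (σ ⟨i + 1, h⟩) (by
        intro hmem
        rw [Finset.mem_map] at hmem
        obtain ⟨k, hk, hk2⟩ := hmem
        have hk3 : k = ⟨i + 1, h⟩ := σ.injective hk2
        have hk4 := (Finset.mem_filter.1 hk).2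
        rw [hk3] at hk4
        simp at hk4) (c i) (c (i + 1)) (hnn i (by omega)) (hcm i h) (by
        intro j hj
        rw [Finset.mem_map] at hj
        obtain ⟨k, hk, rfl⟩ := hj
        have hk4 := (Finset.mem_filter.1 hk).2
        rw [hcv i (by omega)]
        exact hmono (show k ≤ (⟨i, by omega⟩ : Fin I.length) from Nat.lt_succ_iff.1 hk4))
        (by rw [hcv (i + 1) h])
    have h2 : ((Finset.univ.filter (fun k : Fin I.length => (k : ℕ) < i + 1)).map
      σ.toEmbedding).card = i + 1 := by
      rw [Finset.card_map, Fin.card_filter_val_lt]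
      omega
    rw [h2] at h1
    push_cast at h1
    linarith
  have hlow : ∀ i, i < I.length → (p : ℝ) * (i + 1) ≤ 2 * c i := by
    intro i
    cases i with
    | zero =>
      intro h
      have h1 := W0 h
      have h2 : (0 : ℝ) ≤ p := by positivity
      push_cast
      linarith
    | succ i =>
      intro h
      have h1 := W1 i h
      have h2 := hcm i h
      push_cast
      linarith
  -- the offsets
  set y : ℕ → ℝ := fun i => if i = 0 then 0 else if i ≤ I.length then min (2 * c (i - 1) - p * i) p else p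
    with hy
  have hpnn : (0 : ℝ) ≤ p := by positivity
  have hy0 : y 0 = 0 := by simp [hy]
  have hyi : ∀ i, i < I.length → y (i + 1) = min (2 * c i - p * (i + 1)) p := by
    intro i h
    simp only [hy]
    rw [if_neg (by omega), if_pos (by omega)]
    simp
  have hyn : ∀ i, I.length ≤ i → y (i + 1) = p := by
    intro i h
    simp only [hy]
    rw [if_neg (by omega), if_neg (by omega)]
  have hynn : ∀ i, 0 ≤ y i := by
    intro i
    cases i with
    | zero => rw [hy0]
    | succ i =>
      rcases lt_or_ge i I.length with h | h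
      · rw [hyi i h]
        exact le_min (by have := hlow i h; linarith) hpnn
      · rw [hyn i h]
        exact hpnn
  have hyle : ∀ i, y i ≤ p := by
    intro i
    cases i with
    | zero => rw [hy0]; exact hpnn
    | succ i =>
      rcases lt_or_ge i I.length with h | h
      · rw [hyi i h]
        exact min_le_right _ _
      · rw [hyn i h]
  have hysum : ∀ i, (p : ℝ) ≤ y i + y (i + 1) := by
    intro i
    cases i with
    | zero =>
      rw [hy0, zero_add]
      rcases Nat.eq_zero_or_pos I.length with h | h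
      · rw [hyn 0 (by omega)]
      · rw [hyi 0 h]
        refine le_min ?_ le_rfl
        have := W0 h
        push_cast
        linarith
    | succ i =>
      rcases lt_or_ge (i + 1) I.length with h | h
      · rw [hyi (i + 1) h, hyi i (by omega)]
        have h1 := W1 i h
        have h2 := hlow i (by omega)
        have h3 := hlow (i + 1) h
        push_cast at h3 ⊢
        rcases min_cases (2 * c i - (p : ℝ) * (i + 1)) (p : ℝ) with ⟨h4, _⟩ | ⟨h4, _⟩ <;>
        rcases min_cases (2 * c (i + 1) - (p : ℝ) * (i + 1 + 1)) (p : ℝ) with ⟨h5, _⟩ | ⟨h5, _⟩ <;>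
        rw [h4, h5] <;> linarith
      · rw [hyn (i + 1) h]
        have := hynn (i + 1)
        linarith
  -- the list of jobs
  set J : List Job := List.ofFn (fun i : Fin I.length => I[σ i]) with hJ
  have hJperm : J.Perm I := by
    have h1 := Equiv.Perm.ofFn_comp_perm σ (fun i : Fin I.length => I[i])
    have h2 : List.ofFn (fun i : Fin I.length => I[i]) = I := List.ofFn_getElem
    rw [h2] at h1
    exact h1
  have hJlen : J.length = I.length := by simp [hJ]
  set w : ℕ → ℕ := fun i => if h : i < I.length then (I[σ ⟨i, h⟩]).1 else 0 with hw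
  set D : ℕ → ℕ := fun i => if h : i < I.length then 2 * (I[σ ⟨i, h⟩]).2 else 0 with hD
  obtain ⟨y', h0', hle', hsum', hcost⟩ := rounding (n := I.length) y hy0 hynn hyle hysum w D
  have h1 := hmin J y' hJperm h0' hle' hsum'
  have h2 : (m' : ℝ) ≤ (cost (seat p y') 0 J : ℕ) := by exact_mod_cast h1
  refine h2.trans ?_
  have h3 : ((cost (seat p y') 0 J : ℕ) : ℝ) =
      ∑ i ∈ Finset.range I.length, (w i : ℝ) * max 0 ((p : ℝ) * (i + 1) + y' (i + 1) - D i) := by
    rw [cost_eq_sum, Finset.sum_range]
    push_cast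
    rw [← (finCongr hJlen).sum_comp]
    apply Finset.sum_congr rfl
    intro i _
    have hi : (i : ℕ) < I.length := by rw [← hJlen]; exact i.2
    have e1 : J[i] = I[σ ⟨i, hi⟩] := by
      simp [hJ]
    have e2 : ((finCongr hJlen i : Fin I.length) : ℕ) = i := by simp
    rw [e1, e2, natsub_cast]
    simp only [hw, hD, dif_pos hi, seat]
    push_cast
    simp
  rw [h3]
  refine hcost.trans ?_
  rw [Finset.sum_range, tardiness, Finset.mul_sum,
    ← Equiv.sum_comp σ (fun j => 2 * (((I[j].1 : ℕ) : ℝ) *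
      max 0 (completion S j - ((I[j].2 : ℕ) : ℝ))))]
  apply Finset.sum_le_sum
  intro i _
  have hi : (i : ℕ) < I.length := i.2
  have e3 : y ((i : ℕ) + 1) ≤ 2 * c i - p * ((i : ℕ) + 1) := by
    rw [hyi i hi]
    exact min_le_left _ _
  rw [hcv i hi] at e3
  simp only [hw, hD, dif_pos hi]
  push_cast
  have e4 : max 0 ((p : ℝ) * ((i : ℕ) + 1) + y ((i : ℕ) + 1) - 2 * ((I[σ i]).2 : ℝ)) ≤
      2 * max 0 (C (σ i) - ((I[σ i]).2 : ℝ)) := by
    rw [max_le_iff]
    constructor
    · positivity
    · have := le_max_right 0 (C (σ i) - ((I[σ i]).2 : ℝ))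
      have e5 : C (σ ⟨i, hi⟩) = C (σ i) := rfl
      rw [e5] at e3
      linarith
  have e6 : (0 : ℝ) ≤ ((I[σ i]).1 : ℝ) := by positivity
  calc ((I[σ i]).1 : ℝ) * max 0 ((p : ℝ) * ((i : ℕ) + 1) + y ((i : ℕ) + 1) - 2 * ((I[σ i]).2 : ℝ))
      ≤ ((I[σ i]).1 : ℝ) * (2 * max 0 (C (σ i) - ((I[σ i]).2 : ℝ))) :=
        mul_le_mul_of_nonneg_left e4 e6
    _ = 2 * (((I[σ i]).1 : ℝ) * max 0 (C (σ i) - ((I[σ i]).2 : ℝ))) := by ring

/-- Upper bound. -/
theorem upper {p : ℕ} (hp : 0 < p) {I : List Job} {m : ℕ} (hm : optO p I = some m) :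
    ∃ S : Finset (Piece I.length), IsSchedule p I.length S ∧ 2 * tardiness I S ≤ m := by
  obtain ⟨m', hm', ⟨J, y, hJ, h0, hle, hy, hcost⟩, _⟩ := opt_spec p I
  have hmm : m' = m := by
    rw [hm] at hm'
    simpa using hm'.symm
  subst hmm
  obtain ⟨e, he⟩ := perm_equiv hJ
  have hlen : J.length = I.length := hJ.length_eq
  obtain ⟨S, hS, hSc⟩ := build hp y h0 hle hy (e.symm.trans (finCongr hlen))
  refine ⟨S, hS, ?_⟩
  have h3 : ((m' : ℕ) : ℝ) = ∑ j : Fin I.length, ((I[j].1 : ℕ) : ℝ) *
      max 0 ((p : ℝ) * (((e.symm j : Fin J.length) : ℕ) + 1) +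
        y (((e.symm j : Fin J.length) : ℕ) + 1) - 2 * (I[j].2 : ℝ)) := by
    rw [← hcost, cost_eq_sum, ← Equiv.sum_comp e]
    push_cast
    apply Finset.sum_congr rfl
    intro i _
    rw [he i, natsub_cast]
    simp only [seat, Equiv.symm_apply_apply]
    push_cast
    simp
  rw [h3, tardiness, Finset.mul_sum]
  apply Finset.sum_le_sum
  intro j _
  have h4 := hSc j
  have e6 : (0 : ℝ) ≤ ((I[j]).1 : ℝ) := by positivity
  have e7 : 2 * max 0 (completion S j - ((I[j]).2 : ℝ)) ≤
      max 0 ((p : ℝ) * (((e.symm j : Fin J.length) : ℕ) + 1) +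
        y (((e.symm j : Fin J.length) : ℕ) + 1) - 2 * (I[j].2 : ℝ)) := by
    rw [mul_max_of_nonneg _ _ (by norm_num : (0 : ℝ) ≤ 2), max_le_iff]
    constructor
    · simp
    · refine le_trans ?_ (le_max_right _ _)
      have e8 : (((e.symm.trans (finCongr hlen)) j : Fin I.length) : ℕ) =
        ((e.symm j : Fin J.length) : ℕ) := by simp
      rw [e8] at h4
      linarith
  calc 2 * (((I[j]).1 : ℝ) * max 0 (completion S j - ((I[j]).2 : ℝ)))
      = ((I[j]).1 : ℝ) * (2 * max 0 (completion S j - ((I[j]).2 : ℝ))) := by ring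
    _ ≤ _ := mul_le_mul_of_nonneg_left e7 e6

/-- Twice the optimum. -/
def opt (p : ℕ) (I : List Job) : ℕ := (optO p I).getD 0

/-- `opt p I` is twice the minimum total weighted tardiness of a preemptive schedule. -/
theorem opt_isLeast {p : ℕ} (hp : 0 < p) (I : List Job) :
    IsLeast {v : ℝ | ∃ S : Finset (Piece I.length), IsSchedule p I.length S ∧ tardiness I S = v}
      ((opt p I : ℝ) / 2) := by
  obtain ⟨m, hm, _⟩ := opt_spec p I
  have ho : opt p I = m := by simp [opt, hm]
  rw [ho]
  constructor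
  · obtain ⟨S, hS, h1⟩ := upper hp hm
    have h2 := lower hm S hS
    exact ⟨S, hS, by linarith⟩
  · rintro v ⟨S, hS, rfl⟩
    have h2 := lower hm S hS
    linarith

theorem decision_iff {p : ℕ} (hp : 0 < p) (x : List Job × ℕ) :
    Decision p x ↔ opt p x.1 ≤ 2 * x.2 := by
  have h := opt_isLeast hp x.1
  constructor
  · rintro ⟨S, hS, h1⟩
    have h2 := h.2 ⟨S, hS, rfl⟩
    have h3 : (opt p x.1 : ℝ) ≤ 2 * x.2 := by linarith
    exact_mod_cast h3
  · intro h1
    obtain ⟨S, hS, h2⟩ := h.1
    refine ⟨S, hS, ?_⟩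
    rw [h2]
    have h3 : (opt p x.1 : ℝ) ≤ 2 * x.2 := by exact_mod_cast h1
    linarith

end Pool.Agent.H557R2.PW
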