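import Pool.Agent.H557R2.PW.Defs
import Pool.Agent.H671R2.PolyAuto

/-!
# The dynamic program runs in polynomial time (task T6, by helper685)
-/

namespace Pool.Agent.NPC.H685PW

open Pool.Agent.H557R2.PW

/-! ### Tables -/

/-- The arguments of the dynamic program. -/
abbrev Key : Type := ℕ × ℕ × ℕ × ℕ × ℕ

/-- Tables of values. -/
abbrev Tab : Type := List (Key × Option ℕ)

/-- Reading a table. -/
def look (T : Tab) (κ : Key) : Option ℕ :=
  (T.filter (fun e => decide (e.1 = κ))).head?.elim none (fun e => e.2)

theorem look_map (ks : List Key) (g : Key → Option ℕ) {κ : Key} (h : κ ∈ ks) :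
    look (ks.map (fun κ => (κ, g κ))) κ = g κ := by
  have h1 : (κ, g κ) ∈ (ks.map (fun κ => (κ, g κ))).filter (fun e => decide (e.1 = κ)) := by
    rw [List.mem_filter]
    exact ⟨List.mem_map.2 ⟨κ, h, rfl⟩, by simp⟩
  unfold look
  cases hl : (ks.map (fun κ => (κ, g κ))).filter (fun e => decide (e.1 = κ)) with
  | nil => rw [hl] at h1; simp at h1
  | cons e l =>
    have h2 : e ∈ (ks.map (fun κ => (κ, g κ))).filter (fun e => decide (e.1 = κ)) := by
      rw [hl]
      exact List.mem_cons_self
    obtain ⟨h3, h4⟩ := List.mem_filter.1 h2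
    obtain ⟨κ', _, rfl⟩ := List.mem_map.1 h3
    rw [decide_eq_true_eq] at h4
    simp only at h4
    rw [← h4]
    simp

theorem look_some {T : Tab} {κ : Key} {x : ℕ} (h : look T κ = some x) :
    ∃ e ∈ T, e.2 = some x := by
  unfold look at h
  cases hl : T.filter (fun e => decide (e.1 = κ)) with
  | nil => rw [hl] at h; simp at h
  | cons e l =>
    rw [hl] at h
    have h2 : e ∈ T.filter (fun e => decide (e.1 = κ)) := by
      rw [hl]
      exact List.mem_cons_self
    exact ⟨e, (List.mem_filter.1 h2).1, by simpa using h⟩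

/-- The new value. -/
def nv (p : ℕ) (Θ : List ℕ) (L : List Job) (T : Tab) (j : Job) (κ : Key) : Option ℕ :=
  if κ.1 ≤ j.2 ∧ j.2 < κ.2.1 then
    minL (Θ.flatMap (fun X => (List.range (p + 1)).map (fun v =>
      if κ.1 ≤ X ∧ X ≤ κ.2.1 then
        addO (look T (κ.1, X, κ.2.2.1, κ.2.2.2.1, v))
          (addO (some (j.1 * (p * (κ.2.2.1 + (win L κ.1 X).length + 1) + v - 2 * j.2)))
            (look T (X, κ.2.1, κ.2.2.1 + (win L κ.1 X).length + 1, v, κ.2.2.2.2)))
      else none)))
  else look T κ

/-- The table for a list of jobs. -/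
def tab (p : ℕ) (Θ : List ℕ) (ks : List Key) : List Job → Tab
  | [] => ks.map (fun κ => (κ, if p ≤ κ.2.2.2.1 + κ.2.2.2.2 then some 0 else none))
  | j :: L => ks.map (fun κ => (κ, nv p Θ L (tab p Θ ks L) j κ))

/-- The keys. -/
def keysG (Θ R P : List ℕ) : List Key :=
  Θ.flatMap (fun α => Θ.flatMap (fun β => R.flatMap (fun a => P.flatMap (fun y =>
    P.map (fun y' => (α, β, a, y, y'))))))

theorem mem_keysG {Θ R P : List ℕ} {α β a y y' : ℕ} (h1 : α ∈ Θ) (h2 : β ∈ Θ) (h3 : a ∈ R)
    (h4 : y ∈ P) (h5 : y' ∈ P) : (α, β, a, y, y') ∈ keysG Θ R P := by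
  unfold keysG
  rw [List.mem_flatMap]
  refine ⟨α, h1, ?_⟩
  rw [List.mem_flatMap]
  refine ⟨β, h2, ?_⟩
  rw [List.mem_flatMap]
  refine ⟨a, h3, ?_⟩
  rw [List.mem_flatMap]
  refine ⟨y, h4, ?_⟩
  rw [List.mem_map]
  exact ⟨y', h5, rfl⟩

theorem of_mem_keysG {Θ R P : List ℕ} {κ : Key} (h : κ ∈ keysG Θ R P) : κ.2.2.1 ∈ R := by
  unfold keysG at h
  obtain ⟨α, _, h⟩ := List.mem_flatMap.1 h
  obtain ⟨β, _, h⟩ := List.mem_flatMap.1 h
  obtain ⟨a, h3, h⟩ := List.mem_flatMap.1 h
  obtain ⟨y, _, h⟩ := List.mem_flatMap.1 h
  obtain ⟨y', _, rfl⟩ := List.mem_map.1 h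
  exact h3

theorem length_win_le (L : List Job) (α β : ℕ) : (win L α β).length ≤ L.length :=
  List.length_filter_le _ _

/-- The table is correct. -/
theorem look_tab (p N : ℕ) (Θ : List ℕ) : ∀ (L : List Job) (α β a y y' : ℕ), L.length ≤ N →
    α ∈ Θ → β ∈ Θ → a + L.length * (N + 1) ≤ N * (N + 1) → y ≤ p → y' ≤ p →
    look (tab p Θ (keysG Θ (List.range (N * (N + 1) + 1)) (List.range (p + 1))) L)
      (α, β, a, y, y') = F p Θ L α β a y y'
  | [], α, β, a, y, y', _, hα, hβ, ha, hy, hy' => by
    unfold tab
    rw [look_map _ (fun κ : Key => if p ≤ κ.2.2.2.1 + κ.2.2.2.2 then some 0 else none)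
      (mem_keysG hα hβ (List.mem_range.2 (by omega)) (List.mem_range.2 (by omega))
        (List.mem_range.2 (by omega)))]
    rfl
  | j :: L, α, β, a, y, y', hN, hα, hβ, ha, hy, hy' => by
    rw [List.length_cons] at hN ha
    have ha1 : a + L.length * (N + 1) + (N + 1) ≤ N * (N + 1) := by
      rw [Nat.add_mul, one_mul] at ha
      omega
    have ih := look_tab p N Θ L
    unfold tab
    rw [look_map _ (nv p Θ L (tab p Θ (keysG Θ (List.range (N * (N + 1) + 1))
      (List.range (p + 1))) L) j) (mem_keysG hα hβ (List.mem_range.2 (by omega))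
      (List.mem_range.2 (by omega)) (List.mem_range.2 (by omega)))]
    unfold nv
    simp only
    rw [F]
    by_cases hc : α ≤ j.2 ∧ j.2 < β
    · rw [if_pos hc, if_pos hc]
      congr 1
      rw [List.flatMap_def, List.flatMap_def]
      congr 1
      apply List.map_congr_left
      intro X hX
      apply List.map_congr_left
      intro v hv
      have hv' : v ≤ p := by
        have := List.mem_range.1 hv
        omega
      split_ifs with h1
      · have h2 := length_win_le L α X
        rw [ih α X a y v (by omega) hα hX (by omega) hy hv',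
          ih X β (a + (win L α X).length + 1) v y' (by omega) hX hβ (by omega) hv' hy']
      · rfl
    · rw [if_neg hc, if_neg hc]
      exact ih α β a y y' (by omega) hα hβ (by omega) hy hy'

/-! ### The sorted list -/

theorem length_ins (j : Job) (l : List Job) : (ins j l).length = l.length + 1 := by
  unfold ins
  rw [List.length_append, List.length_cons]
  have : (l.filter (fun k => decide (k.1 < j.1))).length +
      (l.filter (fun k => !decide (k.1 < j.1))).length = l.length := by
    rw [← List.length_append]
    exact (List.filter_append_perm _ l).length_eq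
  omega

theorem length_isort (I : List Job) : (isort I).length = I.length := by
  unfold isort
  induction I with
  | nil => rfl
  | cons j I ih => rw [List.foldr_cons, length_ins, ih, List.length_cons]

theorem mem_ins {j k : Job} {l : List Job} (h : k ∈ ins j l) : k = j ∨ k ∈ l := by
  unfold ins at h
  rcases List.mem_append.1 h with h | h
  · exact Or.inr (List.mem_filter.1 h).1
  · rcases List.mem_cons.1 h with h | h
    · exact Or.inl h
    · exact Or.inr (List.mem_filter.1 h).1

theorem mem_isort {k : Job} : ∀ {I : List Job}, k ∈ isort I → k ∈ I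
  | [], h => h
  | j :: I, h => by
    rcases mem_ins h with h | h
    · exact List.mem_cons.2 (Or.inl h)
    · exact List.mem_cons.2 (Or.inr (mem_isort h))

theorem sz_filter_add {α : Type} [TEnc α] (l : List α) (p : α → Bool) :
    sz (l.filter p) + sz (l.filter (fun a => !(p a))) = sz l + 1 := by
  induction l with
  | nil => simp
  | cons a l ih =>
    rw [List.filter_cons, List.filter_cons]
    by_cases h : p a = true
    · rw [if_pos h, if_neg (by simp [h]), sz_list_cons, sz_list_cons]
      omega
    · rw [if_neg h, if_pos (by simpa using h), sz_list_cons, sz_list_cons]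
      omega

theorem sz_ins (j : Job) (l : List Job) : sz (ins j l) = sz j + sz l + 1 := by
  unfold ins
  have h1 := sz_append (l.filter (fun k => decide (k.1 < j.1)))
    (j :: l.filter (fun k => !decide (k.1 < j.1)))
  rw [sz_list_cons] at h1
  have h2 := sz_filter_add l (fun k => decide (k.1 < j.1))
  omega

theorem sz_isort (I : List Job) : sz (isort I) = sz I := by
  unfold isort
  induction I with
  | nil => rfl
  | cons j I ih => rw [List.foldr_cons, sz_ins, ih, sz_list_cons]

theorem poly_isort : Poly isort := by
  unfold isort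
  refine Poly.foldr (l := fun I : List Job => I) (s := fun _ => ([] : List Job))
    (F := fun _ j l => ins j l) Poly.id (Poly.const _) ?_ Polynomial.X ?_
  · unfold ins
    fun_prop
  · intro a k _
    have h1 : (a.drop k).foldr (fun j l => ins j l) [] = isort (a.drop k) := rfl
    rw [h1, sz_isort, Polynomial.eval_X]
    exact Poly.sz_drop_le a k

/-! ### Minima and sums -/

variable {α : Type} [TEnc α]

theorem poly_minO {f g : α → Option ℕ} (hf : Poly f) (hg : Poly g) :
    Poly (fun a => minO (f a) (g a)) := by
  unfold minO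
  fun_prop

theorem poly_addO {f g : α → Option ℕ} (hf : Poly f) (hg : Poly g) :
    Poly (fun a => addO (f a) (g a)) := by
  unfold addO
  fun_prop

attribute [fun_prop] poly_minO poly_addO

theorem minO_some {a b : Option ℕ} {x : ℕ} (h : minO a b = some x) :
    a = some x ∨ b = some x := by
  unfold minO at h
  cases a with
  | none => exact Or.inr h
  | some u =>
    cases b with
    | none => exact Or.inl h
    | some w =>
      simp only [Option.elim_some, Option.some.injEq] at h
      rcases min_choice u w with h1 | h1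
      · rw [h1] at h; exact Or.inl (by rw [h])
      · rw [h1] at h; exact Or.inr (by rw [h])

theorem minL_some : ∀ {l : List (Option ℕ)} {x : ℕ}, minL l = some x → some x ∈ l
  | [], x, h => by simp [minL] at h
  | a :: l, x, h => by
    rcases minO_some h with h1 | h1
    · rw [h1]; exact List.mem_cons_self
    · exact List.mem_cons_of_mem _ (minL_some h1)

theorem sz_minL_le (l : List (Option ℕ)) : sz (minL l) ≤ sz l := by
  cases h : minL l with
  | none => rw [sz_none]; exact sz_pos _
  | some x => exact (sz_le_of_mem (minL_some h)).le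

theorem poly_minL {l : α → List (Option ℕ)} (hl : Poly l) : Poly (fun a => minL (l a)) := by
  obtain ⟨q, hq⟩ := hl.sz_le
  unfold minL
  refine Poly.foldr (l := l) (s := fun _ => (none : Option ℕ))
    (F := fun _ a b => minO a b) hl (Poly.const _) (by fun_prop) q ?_
  intro a k _
  have h1 : ((l a).drop k).foldr (fun a b => minO a b) none = minL ((l a).drop k) := rfl
  rw [h1]
  exact (sz_minL_le _).trans ((Poly.sz_drop_le _ _).trans (hq a))

attribute [fun_prop] poly_minL
attribute [local irreducible] minO addO minL

theorem poly_look {T : α → Tab} {κ : α → Key} (hT : Poly T) (hκ : Poly κ) :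
    Poly (fun a => look (T a) (κ a)) := by
  unfold look
  fun_prop

attribute [fun_prop] poly_look
attribute [local irreducible] look

theorem poly_win {L : α → List Job} {u w : α → ℕ} (hL : Poly L) (hu : Poly u) (hw : Poly w) :
    Poly (fun a => win (L a) (u a) (w a)) := by
  unfold win
  fun_prop

attribute [fun_prop] poly_win
attribute [local irreducible] win

theorem poly_nv (p : ℕ) {Θ : α → List ℕ} {L : α → List Job} {T : α → Tab} {j : α → Job}
    {κ : α → Key} (hΘ : Poly Θ) (hL : Poly L) (hT : Poly T) (hj : Poly j) (hκ : Poly κ) :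
    Poly (fun a => nv p (Θ a) (L a) (T a) (j a) (κ a)) := by
  unfold nv
  fun_prop

attribute [fun_prop] poly_nv
attribute [local irreducible] nv

theorem poly_keysG {Θ R P : α → List ℕ} (hΘ : Poly Θ) (hR : Poly R) (hP : Poly P) :
    Poly (fun a => keysG (Θ a) (R a) (P a)) := by
  unfold keysG
  fun_prop

attribute [fun_prop] poly_keysG
attribute [local irreducible] keysG

/-! ### The bound for the values -/

theorem tab_bound (p : ℕ) (Θ : List ℕ) (ks : List Key) (M N W C : ℕ)
    (hks : ∀ κ ∈ ks, κ.2.2.1 ≤ M) (hC : W * (p * (M + N + 1) + p) ≤ C) :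
    ∀ L : List Job, L.length ≤ N → (∀ j ∈ L, j.1 ≤ W) → ∀ e ∈ tab p Θ ks L, ∀ x, e.2 = some x →
      x + C ≤ 2 ^ L.length * C
  | [], _, _, e, he, x, hx => by
    unfold tab at he
    obtain ⟨κ, _, rfl⟩ := List.mem_map.1 he
    simp only at hx
    split_ifs at hx
    rw [Option.some.injEq] at hx
    simp [← hx]
  | j :: L, hN, hW, e, he, x, hx => by
    rw [List.length_cons] at hN
    have ih := tab_bound p Θ ks M N W C hks hC L (by omega)
      (fun j hj => hW j (List.mem_cons_of_mem _ hj))
    have hlook : ∀ κ x, look (tab p Θ ks L) κ = some x → x + C ≤ 2 ^ L.length * C := by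
      intro κ x h
      obtain ⟨e, he, h1⟩ := look_some h
      exact ih e he x h1
    have h2 : 2 ^ (j :: L).length * C = 2 ^ L.length * C + 2 ^ L.length * C := by
      rw [List.length_cons, pow_succ]
      ring
    rw [h2]
    unfold tab at he
    obtain ⟨κ, hκ, rfl⟩ := List.mem_map.1 he
    simp only at hx
    unfold nv at hx
    split_ifs at hx with hc
    · have h3 := minL_some hx
      obtain ⟨X, _, h3⟩ := List.mem_flatMap.1 h3
      obtain ⟨v, hv, h3⟩ := List.mem_map.1 h3
      split_ifs at h3 with h4
      cases h5 : look (tab p Θ ks L) (κ.1, X, κ.2.2.1, κ.2.2.2.1, v) with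
      | none => rw [h5] at h3; simp [addO] at h3
      | some x1 =>
        cases h6 : look (tab p Θ ks L) (X, κ.2.1, κ.2.2.1 + (win L κ.1 X).length + 1, v,
            κ.2.2.2.2) with
        | none => rw [h5, h6] at h3; simp [addO] at h3
        | some x2 =>
          rw [h5, h6] at h3
          simp only [addO, Option.elim_some, Option.some.injEq] at h3
          have h7 := hlook _ _ h5
          have h8 := hlook _ _ h6
          have h9 : j.1 * (p * (κ.2.2.1 + (win L κ.1 X).length + 1) + v - 2 * j.2) ≤ C := by
            refine le_trans ?_ hC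
            apply Nat.mul_le_mul (hW j List.mem_cons_self)
            have h10 := hks κ hκ
            have h11 : (win L κ.1 X).length ≤ N := (length_win_le L κ.1 X).trans (by omega)
            have h12 : p * (κ.2.2.1 + (win L κ.1 X).length + 1) ≤ p * (M + N + 1) :=
              Nat.mul_le_mul_left _ (by omega)
            have h13 := List.mem_range.1 hv
            omega
          omega
    · have := hlook _ _ hx
      omega

/-- The state after the jobs of `L`. -/
def state (p : ℕ) (Θ : List ℕ) (ks : List Key) (L : List Job) : List Job × Tab :=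
  L.foldr (fun j s => (j :: s.1, ks.map (fun κ => (κ, nv p Θ s.1 s.2 j κ))))
    ([], ks.map (fun κ => (κ, if p ≤ κ.2.2.2.1 + κ.2.2.2.2 then some 0 else none)))

theorem state_eq (p : ℕ) (Θ : List ℕ) (ks : List Key) (L : List Job) :
    state p Θ ks L = (L, tab p Θ ks L) := by
  unfold state
  induction L with
  | nil => rfl
  | cons j L ih =>
    rw [List.foldr_cons, ih]
    rfl

/-- The keys used for `I`. -/
def keysI (p : ℕ) (I : List Job) : List Key :=
  keysG (theta I) (List.range (I.length * (I.length + 1) + 1)) (List.range (p + 1))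

theorem poly_theta : Poly theta := by
  unfold theta
  fun_prop

theorem poly_theta' {I : α → List Job} (hI : Poly I) : Poly (fun a => theta (I a)) :=
  poly_theta.comp hI

attribute [fun_prop] poly_theta'
attribute [local irreducible] theta

theorem poly_keysI (p : ℕ) : Poly (keysI p) := by
  have h1 : Poly (fun I : List Job => List.range (I.length * (I.length + 1) + 1)) :=
    (((UPoly.length Poly.id).mul ((UPoly.length Poly.id).add (UPoly.const 1))).add
      (UPoly.const 1)).range
  unfold keysI
  fun_prop

theorem poly_keysI' (p : ℕ) {I : α → List Job} (hI : Poly I) : Poly (fun a => keysI p (I a)) :=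
  (poly_keysI p).comp hI

attribute [fun_prop] poly_keysI'

theorem sz_drop_le' (l : List Job) (k : ℕ) : sz (l.drop k) ≤ sz l := Poly.sz_drop_le l k

theorem sz_tab_le (p : ℕ) (I L : List Job) (hLlen : L.length ≤ I.length) (hLI : ∀ j ∈ L, j ∈ I)
    {k c : ℕ} (hk : sz (keysI p I) ≤ k)
    (hc : sz ((I.map Prod.fst).sum * (p * (I.length * (I.length + 1) + I.length + 1) + p)) ≤ c) :
    sz (tab p (theta I) (keysI p I) L) ≤ k * (k + (4 * (sz I + c) + 3) + 2) + 1 := by
  set C := (I.map Prod.fst).sum * (p * (I.length * (I.length + 1) + I.length + 1) + p) with hCdef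
  have h3 : ∀ j ∈ L, j.1 ≤ (I.map Prod.fst).sum := by
    intro j hj
    exact List.single_le_sum (by intro x _; exact Nat.zero_le x) _
      (List.mem_map.2 ⟨j, hLI j hj, rfl⟩)
  have hks : ∀ κ ∈ keysI p I, κ.2.2.1 ≤ I.length * (I.length + 1) := by
    intro κ hκ
    have := List.mem_range.1 (of_mem_keysG hκ)
    omega
  have h4 := tab_bound p (theta I) (keysI p I) _ _ _ C hks le_rfl L hLlen h3
  have h5 : ∀ e ∈ tab p (theta I) (keysI p I) L, sz e ≤ k + (4 * (sz I + c) + 3) + 1 := by
    intro e he
    have hκ : e.1 ∈ keysI p I := by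
      cases hLe : L with
      | nil =>
        rw [hLe] at he
        unfold tab at he
        obtain ⟨κ, hκ, rfl⟩ := List.mem_map.1 he
        exact hκ
      | cons j L' =>
        rw [hLe] at he
        unfold tab at he
        obtain ⟨κ, hκ, rfl⟩ := List.mem_map.1 he
        exact hκ
    have h6 := sz_le_of_mem hκ
    have h8 : sz e.2 ≤ 4 * (sz I + c) + 3 := by
      cases h9 : e.2 with
      | none => rw [sz_none]; omega
      | some x =>
        rw [sz_some]
        have h10 := h4 e he x h9
        have h11 : x ≤ 2 ^ I.length * C := by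
          have h12 : 2 ^ L.length * C ≤ 2 ^ I.length * C :=
            Nat.mul_le_mul_right _ (Nat.pow_le_pow_right (by norm_num) hLlen)
          omega
        have h12 := sz_nat_le x
        have h13 : x.size ≤ I.length + C.size := by
          rw [Nat.size_le]
          have h14 := Nat.lt_size_self C
          refine lt_of_le_of_lt h11 ?_
          rw [pow_add]
          exact Nat.mul_lt_mul_of_pos_left h14 (by positivity)
        have h14 := size_le_sz C
        have h16 := length_lt_sz I
        omega
    have h9 : sz e = sz e.1 + sz e.2 + 1 := sz_pair e.1 e.2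
    omega
  have h6 := sz_le_length_mul _ _ h5
  have h7 : (tab p (theta I) (keysI p I) L).length = (keysI p I).length := by
    cases L with
    | nil => unfold tab; rw [List.length_map]
    | cons j L' => unfold tab; rw [List.length_map]
  rw [h7] at h6
  have h8 := length_lt_sz (keysI p I)
  refine h6.trans (Nat.succ_le_succ (Nat.mul_le_mul (h8.le.trans hk) le_rfl))

theorem poly_state (p : ℕ) :
    Poly (fun I : List Job => state p (theta I) (keysI p I) (isort I)) := by
  obtain ⟨q1, hq1⟩ := (poly_keysI p).sz_le
  have hC : Poly (fun I : List Job => (I.map Prod.fst).sum *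
      (p * (I.length * (I.length + 1) + I.length + 1) + p)) := by fun_prop
  obtain ⟨q2, hq2⟩ := hC.sz_le
  have hinit : Poly (fun I : List Job => (([], (keysI p I).map (fun κ =>
      (κ, if p ≤ κ.2.2.2.1 + κ.2.2.2.2 then some 0 else none))) : List Job × Tab)) := by fun_prop
  have hstep : Poly (fun z : List Job × Job × List Job × Tab =>
      ((z.2.1 :: z.2.2.1, (keysI p z.1).map
        (fun κ => (κ, nv p (theta z.1) z.2.2.1 z.2.2.2 z.2.1 κ))) : List Job × Tab)) := by
    fun_prop
  refine (Poly.foldr (F := fun I j s => (j :: s.1, (keysI p I).map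
    (fun κ => (κ, nv p (theta I) s.1 s.2 j κ)))) poly_isort hinit hstep
    (Polynomial.X + (q1 * (q1 + (Polynomial.C 4 * (Polynomial.X + q2) + Polynomial.C 3) +
      Polynomial.C 2) + Polynomial.C 1) + Polynomial.C 1) ?_).congr fun I => rfl
  intro I k _
  change sz (state p (theta I) (keysI p I) ((isort I).drop k)) ≤ _
  rw [state_eq, sz_pair]
  have h1 : ((isort I).drop k).length ≤ I.length := by
    rw [List.length_drop, length_isort]
    omega
  have h2 : sz ((isort I).drop k) ≤ sz I := (sz_drop_le' _ _).trans (sz_isort I).le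
  have h3 := sz_tab_le p I ((isort I).drop k) h1
    (fun j hj => mem_isort (List.mem_of_mem_drop hj)) (hq1 I) (hq2 I)
  simp only [Polynomial.eval_add, Polynomial.eval_mul, Polynomial.eval_X, Polynomial.eval_C]
  exact Nat.succ_le_succ (Nat.add_le_add h2 h3)

end Pool.Agent.NPC.H685PW

namespace Pool.Agent.H557R2.PW

open Pool.Agent.NPC

/-- The dynamic program runs in polynomial time. -/
theorem poly_optO (p : ℕ) : Pool.Agent.NPC.Poly (fun I : List Job => optO p I) := by
  have h1 := H685PW.poly_state p
  have h2 : Pool.Agent.NPC.Poly (fun I : List Job => ((I.map (fun j => j.2 + 1)).sum)) := by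
    fun_prop
  have h3 : Pool.Agent.NPC.Poly (fun I : List Job => H685PW.look
      (H685PW.state p (theta I) (H685PW.keysI p I) (isort I)).2
      (0, (I.map (fun j => j.2 + 1)).sum, 0, 0, p)) := by
    fun_prop
  refine h3.congr fun I => ?_
  rw [H685PW.state_eq]
  unfold optO H685PW.keysI
  apply H685PW.look_tab
  · rw [H685PW.length_isort]
  · unfold theta
    exact List.mem_cons_self
  · unfold theta
    simp
  · rw [H685PW.length_isort]
    omega
  · exact Nat.zero_le _
  · exact le_rfl

end Pool.Agent.H557R2.PW
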