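import Pool.Agent.H557R2.PW.Defs

/-!
# Seats: the lightest job splits the others by a due date threshold (Lawler)
-/

namespace Pool.Agent.H557R2.PW

/-- Cost of the jobs `J` occupying the seats `a+1, a+2, …`, where seat `i` has doubled time
`τ i`. -/
def cost (τ : ℕ → ℕ) : ℕ → List Job → ℕ
  | _, [] => 0
  | a, j :: J => j.1 * (τ (a + 1) - 2 * j.2) + cost τ (a + 1) J

@[simp] theorem cost_nil (τ : ℕ → ℕ) (a : ℕ) : cost τ a [] = 0 := rfl

@[simp] theorem cost_cons (τ : ℕ → ℕ) (a : ℕ) (j : Job) (J : List Job) :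
    cost τ a (j :: J) = j.1 * (τ (a + 1) - 2 * j.2) + cost τ (a + 1) J := rfl

theorem cost_append (τ : ℕ → ℕ) : ∀ (A : List Job) (a : ℕ) (B : List Job),
    cost τ a (A ++ B) = cost τ a A + cost τ (a + A.length) B
  | [], a, B => by simp
  | j :: A, a, B => by
    have h : a + (j :: A).length = a + 1 + A.length := by simp; omega
    rw [List.cons_append, cost_cons, cost_cons, cost_append τ A (a + 1) B, h]
    omega

theorem cost_congr {τ τ' : ℕ → ℕ} : ∀ (J : List Job) (a : ℕ)
    (_ : ∀ i, a < i → i ≤ a + J.length → τ i = τ' i), cost τ a J = cost τ' a J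
  | [], a, _ => rfl
  | j :: J, a, h => by
    rw [cost_cons, cost_cons, h (a + 1) (by omega) (by simp),
      cost_congr J (a + 1) fun i h1 h2 => h i (by omega) (by simp at h2 ⊢; omega)]

theorem cost_mono {τ : ℕ → ℕ} (hτ : Monotone τ) : ∀ (J : List Job) (a : ℕ),
    cost τ a J ≤ cost τ (a + 1) J
  | [], a => le_rfl
  | j :: J, a => by
    rw [cost_cons, cost_cons]
    have h1 : τ (a + 1) ≤ τ (a + 1 + 1) := hτ (by omega)
    exact Nat.add_le_add (Nat.mul_le_mul_left _ (by omega)) (cost_mono hτ J (a + 1))

theorem cost_zero {τ : ℕ → ℕ} (hτ : Monotone τ) : ∀ (B : List Job) (a : ℕ)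
    (_ : ∀ k ∈ B, τ (a + B.length) ≤ 2 * k.2), cost τ a B = 0
  | [], a, _ => rfl
  | j :: B, a, h => by
    have h1 : τ (a + 1) ≤ 2 * j.2 :=
      le_trans (hτ (by simp)) (h j (by simp))
    have h2 := cost_zero hτ B (a + 1) fun k hk => by
      refine le_trans (le_of_eq ?_) (h k (List.mem_cons_of_mem _ hk))
      congr 1
      simp
      omega
    rw [cost_cons, h2, Nat.sub_eq_zero_of_le h1]
    simp

/-- Late jobs may be inserted anywhere. -/
theorem cost_insert_late {τ : ℕ → ℕ} (hτ : Monotone τ) (A : List Job) (l : Job) (B : List Job)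
    (a : ℕ) (h : ∀ k ∈ l :: B, τ (a + A.length + B.length + 1) ≤ 2 * k.2) :
    cost τ a (A ++ l :: B) ≤ cost τ (a + 1) (A ++ B) := by
  have h1 : cost τ (a + A.length) (l :: B) = 0 := by
    apply cost_zero hτ
    intro k hk
    refine le_trans (le_of_eq ?_) (h k hk)
    congr 1
  rw [cost_append, h1, cost_append]
  have := cost_mono hτ A a
  omega

/-- Stable partition of the jobs preceding `j` into early and late ones. -/
theorem cost_partition {τ : ℕ → ℕ} (hτ : Monotone τ) (j : Job) (X : ℕ) :
    ∀ (P : List Job) (a : ℕ) (_ : τ (a + P.length + 1) ≤ X),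
      cost τ a (P.filter (fun k => decide (2 * k.2 ≤ X)) ++
        j :: P.filter (fun k => !decide (2 * k.2 ≤ X))) ≤ cost τ a (P ++ [j])
  | [], a, _ => by simp
  | e :: P, a, h => by
    have hP : τ (a + 1 + P.length + 1) ≤ X := by
      refine le_trans (le_of_eq ?_) h
      congr 1
      simp
      omega
    have ih := cost_partition hτ j X P (a + 1) hP
    by_cases he : 2 * e.2 ≤ X
    · have h1 : (e :: P).filter (fun k => decide (2 * k.2 ≤ X)) =
          e :: P.filter (fun k => decide (2 * k.2 ≤ X)) := by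
        simp [he]
      have h2 : (e :: P).filter (fun k => !decide (2 * k.2 ≤ X)) =
          P.filter (fun k => !decide (2 * k.2 ≤ X)) := by
        simp [he]
      rw [h1, h2, List.cons_append, List.cons_append, cost_cons, cost_cons]
      omega
    · have h1 : (e :: P).filter (fun k => decide (2 * k.2 ≤ X)) =
          P.filter (fun k => decide (2 * k.2 ≤ X)) := by
        simp [he]
      have h2 : (e :: P).filter (fun k => !decide (2 * k.2 ≤ X)) =
          e :: P.filter (fun k => !decide (2 * k.2 ≤ X)) := by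
        simp [he]
      rw [h1, h2]
      have h3 := cost_insert_late hτ (P.filter (fun k => decide (2 * k.2 ≤ X)) ++ [j]) e
        (P.filter (fun k => !decide (2 * k.2 ≤ X))) a (by
          intro k hk
          have hk2 : X ≤ 2 * k.2 := by
            rcases List.mem_cons.1 hk with rfl | hk
            · omega
            · have := (List.mem_filter.1 hk).2
              simp at this
              omega
          refine le_trans (le_trans (hτ ?_) h) hk2
          have h4 := List.length_eq_length_filter_add (l := P) (fun k => decide (2 * k.2 ≤ X))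
          simp only [List.length_append, List.length_cons, List.length_nil]
          omega)
      have e1 : P.filter (fun k => decide (2 * k.2 ≤ X)) ++ [j] ++
          e :: P.filter (fun k => !decide (2 * k.2 ≤ X)) =
          P.filter (fun k => decide (2 * k.2 ≤ X)) ++
            j :: e :: P.filter (fun k => !decide (2 * k.2 ≤ X)) := by simp
      have e2 : P.filter (fun k => decide (2 * k.2 ≤ X)) ++ [j] ++
          P.filter (fun k => !decide (2 * k.2 ≤ X)) =
          P.filter (fun k => decide (2 * k.2 ≤ X)) ++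
            j :: P.filter (fun k => !decide (2 * k.2 ≤ X)) := by simp
      rw [e1, e2] at h3
      rw [List.cons_append, cost_cons]
      omega

/-- The exchange inequality. -/
theorem swap_ineq {w w' x z D D' : ℕ} (hw : w ≤ w') (hx : x ≤ z) (h : D' ≤ x ∨ D' ≤ D) :
    w' * (x - D') + w * (z - D) ≤ w * (x - D) + w' * (z - D') := by
  have h1 : (z - D) + (x - D') ≤ (x - D) + (z - D') := by omega
  have h2 : x - D' ≤ z - D' := by omega
  obtain ⟨c, rfl⟩ := Nat.exists_eq_add_of_le hw
  have h3 : w * ((z - D) + (x - D')) ≤ w * ((x - D) + (z - D')) := Nat.mul_le_mul_left _ h1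
  have h4 : c * (x - D') ≤ c * (z - D') := Nat.mul_le_mul_left _ h2
  nlinarith

/-- First step: push the lightest job `j` to the right as long as this does not cost anything. -/
theorem push {τ : ℕ → ℕ} (hτ : Monotone τ) (j : Job) (a : ℕ) :
    ∀ (n : ℕ) (P Q : List Job) (_ : Q.length = n) (_ : ∀ k ∈ Q, j.1 ≤ k.1),
      ∃ P' Q' : List Job, (P' ++ j :: Q').Perm (P ++ j :: Q) ∧
        cost τ a (P' ++ j :: Q') ≤ cost τ a (P ++ j :: Q) ∧
        ∀ m ∈ Q', max (τ (a + P'.length + 1)) (2 * j.2) < 2 * m.2 := by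
  intro n
  induction n using Nat.strong_induction_on with
  | _ n ih =>
    intro P Q hQ hmin
    by_cases hall : ∀ m ∈ Q, max (τ (a + P.length + 1)) (2 * j.2) < 2 * m.2
    · exact ⟨P, Q, List.Perm.refl _, le_rfl, hall⟩
    push Not at hall
    obtain ⟨m, hm, hm2⟩ := hall
    obtain ⟨Q1, Q2, rfl⟩ := List.append_of_mem hm
    obtain ⟨P', Q', h1, h2, h3⟩ := ih Q2.length (by simp at hQ; omega) (P ++ m :: Q1) Q2 rfl
      (fun k hk => hmin k (by simp [hk]))
    refine ⟨P', Q', h1.trans ?_, h2.trans ?_, h3⟩
    · have e : P ++ m :: Q1 ++ j :: Q2 = P ++ (m :: (Q1 ++ j :: Q2)) := by simp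
      rw [e]
      refine List.Perm.append_left P ?_
      calc (m :: (Q1 ++ j :: Q2)).Perm (m :: j :: (Q1 ++ Q2)) :=
            List.Perm.cons _ List.perm_middle
        _ |>.Perm (j :: m :: (Q1 ++ Q2)) := List.Perm.swap _ _ _
        _ |>.Perm (j :: (Q1 ++ m :: Q2)) := List.Perm.cons _ List.perm_middle.symm
    · have hwm : j.1 ≤ m.1 := hmin m (by simp)
      have e1 : P ++ m :: Q1 ++ j :: Q2 = P ++ ([m] ++ (Q1 ++ ([j] ++ Q2))) := by simp
      have e2 : P ++ j :: (Q1 ++ m :: Q2) = P ++ ([j] ++ (Q1 ++ ([m] ++ Q2))) := by simp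
      rw [e1, e2]
      simp only [cost_append, cost_cons, cost_nil, List.length_cons, List.length_nil, add_zero,
        zero_add]
      have hx : τ (a + P.length + 1) ≤ τ (a + P.length + 1 + Q1.length + 1) := hτ (by omega)
      have hs := swap_ineq (D := 2 * j.2) (D' := 2 * m.2) hwm hx (le_max_iff.1 hm2)
      omega

/-- Lawler's decomposition: for fixed seats, the lightest job can be assumed to split the others
according to a due date threshold. -/
theorem lawler {τ : ℕ → ℕ} (hτ : Monotone τ) (j : Job) (J : List Job) (hj : j ∈ J)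
    (hmin : ∀ k ∈ J, j.1 ≤ k.1) (a : ℕ) :
    ∃ (P Q : List Job) (X : ℕ), (P ++ j :: Q).Perm J ∧ cost τ a (P ++ j :: Q) ≤ cost τ a J ∧
      (∀ k ∈ P, 2 * k.2 ≤ X) ∧ ∀ k ∈ Q, X < 2 * k.2 := by
  obtain ⟨P0, Q0, rfl⟩ := List.append_of_mem hj
  obtain ⟨P, Q, h1, h2, h3⟩ := push hτ j a Q0.length P0 Q0 rfl (fun k hk => hmin k (by simp [hk]))
  set X := max (τ (a + P.length + 1)) (2 * j.2) with hX
  refine ⟨P.filter (fun k => decide (2 * k.2 ≤ X)),
    P.filter (fun k => !decide (2 * k.2 ≤ X)) ++ Q, X, ?_, ?_, ?_, ?_⟩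
  · refine List.Perm.trans ?_ h1
    have h4 : (P.filter (fun k => decide (2 * k.2 ≤ X)) ++
        P.filter (fun k => !decide (2 * k.2 ≤ X))).Perm P :=
      List.filter_append_perm _ P
    calc (P.filter (fun k => decide (2 * k.2 ≤ X)) ++
          j :: (P.filter (fun k => !decide (2 * k.2 ≤ X)) ++ Q)).Perm
          (j :: (P.filter (fun k => decide (2 * k.2 ≤ X)) ++
            (P.filter (fun k => !decide (2 * k.2 ≤ X)) ++ Q))) := List.perm_middle
      _ |>.Perm (j :: ((P.filter (fun k => decide (2 * k.2 ≤ X)) ++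
            P.filter (fun k => !decide (2 * k.2 ≤ X))) ++ Q)) := by
          rw [List.append_assoc]
      _ |>.Perm (j :: (P ++ Q)) := List.Perm.cons _ (List.Perm.append_right Q h4)
      _ |>.Perm (P ++ j :: Q) := List.perm_middle.symm
  · refine le_trans ?_ h2
    have h4 := cost_partition hτ j X P a (le_max_left _ _)
    have e1 : P.filter (fun k => decide (2 * k.2 ≤ X)) ++
        j :: (P.filter (fun k => !decide (2 * k.2 ≤ X)) ++ Q) =
        (P.filter (fun k => decide (2 * k.2 ≤ X)) ++
        j :: P.filter (fun k => !decide (2 * k.2 ≤ X))) ++ Q := by simp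
    have e2 : P ++ j :: Q = (P ++ [j]) ++ Q := by simp
    rw [e1, e2, cost_append τ (P.filter (fun k => decide (2 * k.2 ≤ X)) ++
        j :: P.filter (fun k => !decide (2 * k.2 ≤ X))) a Q, cost_append τ (P ++ [j]) a Q]
    have h5 : (P.filter (fun k => decide (2 * k.2 ≤ X)) ++
        j :: P.filter (fun k => !decide (2 * k.2 ≤ X))).length = (P ++ [j]).length := by
      have h6 := List.length_eq_length_filter_add (l := P) (fun k => decide (2 * k.2 ≤ X))
      simp only [List.length_append, List.length_cons, List.length_nil]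
      omega
    rw [h5]
    exact Nat.add_le_add_right h4 _
  · intro k hk
    have := (List.mem_filter.1 hk).2
    simpa using this
  · intro k hk
    rcases List.mem_append.1 hk with hk | hk
    · have := (List.mem_filter.1 hk).2
      simpa using this
    · exact h3 k hk

end Pool.Agent.H557R2.PW
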