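import Pool.Agent.H557R2.PW.Defs

/-! Stubs (statements) for the project MP_df8bb0_lc. Each theorem goes in its own file. -/

namespace Pool.Agent.H557R2.PW

open Pool.Agent.NPC

/-- T1 (file Work.lean). Work bound. -/
theorem work_bound {p n : ℕ} {S : Finset (Piece n)} (hS : IsSchedule p n S)
    (A : Finset (Fin n)) (j : Fin n) (hj : j ∉ A) (s t : ℝ) (hs : 0 ≤ s) (hst : s ≤ t)
    (hA : ∀ i ∈ A, completion S i ≤ s) (ht : completion S j ≤ t) :
    (p : ℝ) * (A.card + 1) ≤ s + t := by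
  sorry

/-- T2 (file Build.lean). Construction of schedules. -/
theorem build {p n : ℕ} (hp : 0 < p) (y : ℕ → ℕ) (h0 : y 0 = 0) (hle : ∀ i, y i ≤ p)
    (hy : ∀ i, p ≤ y i + y (i + 1)) (σ : Equiv.Perm (Fin n)) :
    ∃ S : Finset (Piece n), IsSchedule p n S ∧
      ∀ j : Fin n, completion S j ≤ ((p : ℝ) * ((σ j : ℕ) + 1) + y ((σ j : ℕ) + 1)) / 2 := by
  sorry

/-- T3 (file Round.lean). Rounding of the offsets of the seats. -/
theorem rounding {p n : ℕ} (y : ℕ → ℝ) (h0 : y 0 = 0) (hnn : ∀ i, 0 ≤ y i) (hle : ∀ i, y i ≤ p)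
    (hy : ∀ i, (p : ℝ) ≤ y i + y (i + 1)) (w D : ℕ → ℕ) :
    ∃ y' : ℕ → ℕ, y' 0 = 0 ∧ (∀ i, y' i ≤ p) ∧ (∀ i, p ≤ y' i + y' (i + 1)) ∧
      ∑ i ∈ Finset.range n, (w i : ℝ) * max 0 ((p : ℝ) * (i + 1) + y' (i + 1) - D i) ≤
        ∑ i ∈ Finset.range n, (w i : ℝ) * max 0 ((p : ℝ) * (i + 1) + y (i + 1) - D i) := by
  sorry

/-- T6 (file PolyF.lean). The dynamic program runs in polynomial time. -/
theorem poly_optO (p : ℕ) : Poly (fun I : List Job => optO p I) := by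
  sorry

end Pool.Agent.H557R2.PW
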